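import Pool.Agent.J4H62.VC.Core
import Mathlib.Analysis.SpecialFunctions.Log.Base

/-!
# The chromatic number from random sets of vertices
-/

set_option autoImplicit false

namespace Pool.Agent.J4H62.VC

open Finset
open Pool.TH815.LS

variable {V : Type} [Fintype V] [DecidableEq V]

lemma colorable_of_sets (G : SimpleGraph V) [DecidableRel G.Adj] (r : ℕ) (hr1 : 1 ≤ r)
    (hr : (G.adjMatrix ℝ).rank ≤ r) {p q : ℝ} (hp : 0 < p) (h : Sets G p q) (k : ℕ)
    (hq : 0 ≤ q) (hk : 16 * r * q ^ k ≤ p ^ (2 * k)) :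
    G.Colorable (⌈6 / p ^ k⌉₊ * (r + 1)) := by
  classical
  obtain ⟨rep, hrc, hrep⟩ := exists_rep G r hr
  set K := ⌈6 / p ^ k⌉₊ with hK
  have hpk : 0 < p ^ k := pow_pos hp k
  have hK1 : 1 ≤ K := Nat.ceil_pos.2 (by positivity)
  have hlarge : ∀ W : Finset V, ∃ I ⊆ W, Indep G I ∧ W.card ≤ K * I.card := by
    intro W
    obtain ⟨S, hSW, hS, hc⟩ := large_stable G r hr1 hr hp h k hq hk W
    refine ⟨S, hSW, hS, ?_⟩
    have h1 : (W.card : ℝ) ≤ 6 / p ^ k * S.card := by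
      rw [div_mul_eq_mul_div, le_div_iff₀ hpk]
      exact hc
    have h2 : (W.card : ℝ) ≤ K * S.card :=
      h1.trans (mul_le_mul_of_nonneg_right (Nat.le_ceil _) (Nat.cast_nonneg _))
    exact_mod_cast h2
  obtain ⟨f, hf1, hf2⟩ := colOn_of_large G K hK1 hlarge (r + 1) (univ.image rep) (by
    refine lt_of_le_of_lt hrc ?_
    exact Nat.pow_lt_pow_right (by norm_num) (by omega))
  refine ⟨SimpleGraph.Coloring.mk (fun v => (⟨f (rep v), ?_⟩ : Fin (K * (r + 1)))) ?_⟩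
  · exact hf1 (rep v) (mem_image_of_mem _ (mem_univ _))
  · intro u v huv heq
    rw [Fin.mk.injEq] at heq
    exact hf2 (rep u) (mem_image_of_mem _ (mem_univ _)) (rep v)
      (mem_image_of_mem _ (mem_univ _)) (hrep u v huv) heq

omit [Fintype V] [DecidableEq V] in
lemma logb_chromatic_le (G : SimpleGraph V) {N : ℕ} (h : G.Colorable N) {B : ℝ}
    (hB : Real.logb 2 N ≤ B) (hB0 : 0 ≤ B) :
    Real.logb 2 (G.chromaticNumber.toNat : ℝ) ≤ B := by
  have h1 : G.chromaticNumber ≤ N := h.chromaticNumber_le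
  have h2 : G.chromaticNumber.toNat ≤ N := by
    have := ENat.toNat_le_toNat h1 (ENat.natCast_ne_top N)
    simpa using this
  rcases Nat.eq_zero_or_pos G.chromaticNumber.toNat with h0 | h0
  · rw [h0]
    simpa using hB0
  · refine le_trans ?_ hB
    exact Real.logb_le_logb_of_le (by norm_num) (by exact_mod_cast h0) (by exact_mod_cast h2)

/-- the chromatic number, with `k` copies -/
lemma chromatic_of_sets (G : SimpleGraph V) [DecidableRel G.Adj] (r : ℕ) (hr1 : 1 ≤ r)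
    (hr : (G.adjMatrix ℝ).rank ≤ r) {p q : ℝ} (hp : 0 < p) (hp1 : p ≤ 1) (h : Sets G p q) (k : ℕ)
    (hq : 0 ≤ q) (hk : 16 * r * q ^ k ≤ p ^ (2 * k)) :
    Real.logb 2 (G.chromaticNumber.toNat : ℝ) ≤
      k * Real.logb 2 (1 / p) + Real.logb 2 r + 4 := by
  have hc := colorable_of_sets G r hr1 hr hp h k hq hk
  have hpk : 0 < p ^ k := pow_pos hp k
  have hpk1 : p ^ k ≤ 1 := pow_le_one₀ hp.le hp1
  have hr' : (1 : ℝ) ≤ r := by exact_mod_cast hr1
  have hl1 : 0 ≤ Real.logb 2 (1 / p) :=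
    Real.logb_nonneg (by norm_num) (by rw [le_div_iff₀ hp]; linarith)
  have hl2 : 0 ≤ Real.logb 2 (r : ℝ) := Real.logb_nonneg (by norm_num) hr'
  refine logb_chromatic_le G hc ?_ (by positivity)
  have h1 : ((⌈6 / p ^ k⌉₊ * (r + 1) : ℕ) : ℝ) ≤ (1 / p) ^ k * r * 2 ^ 4 := by
    push_cast
    have h2 : (⌈6 / p ^ k⌉₊ : ℝ) ≤ 7 / p ^ k := by
      have h3 := (Nat.ceil_lt_add_one (show 0 ≤ 6 / p ^ k by positivity)).le
      refine h3.trans ?_
      have h4 : 1 ≤ 1 / p ^ k := by rw [le_div_iff₀ hpk]; linarith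
      calc 6 / p ^ k + 1 ≤ 6 / p ^ k + 1 / p ^ k := by linarith
        _ = 7 / p ^ k := by ring
    calc (⌈6 / p ^ k⌉₊ : ℝ) * (r + 1) ≤ 7 / p ^ k * (2 * r) :=
          mul_le_mul h2 (by linarith) (by positivity) (by positivity)
      _ = (1 / p) ^ k * r * 14 := by
          rw [div_pow, one_pow]
          ring
      _ ≤ (1 / p) ^ k * r * 2 ^ 4 :=
          mul_le_mul_of_nonneg_left (by norm_num) (by positivity)
  have h0 : (0 : ℝ) < ((⌈6 / p ^ k⌉₊ * (r + 1) : ℕ) : ℝ) := by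
    have : 0 < ⌈6 / p ^ k⌉₊ := Nat.ceil_pos.2 (by positivity)
    positivity
  refine (Real.logb_le_logb_of_le (by norm_num) h0 h1).trans (le_of_eq ?_)
  have hp' : (1 / p) ^ k ≠ 0 := by positivity
  have hr'' : (r : ℝ) ≠ 0 := by positivity
  rw [Real.logb_mul (mul_ne_zero hp' hr'') (by norm_num), Real.logb_mul hp' hr'',
    Real.logb_pow, Real.logb_pow, Real.logb_self_eq_one (by norm_num)]
  norm_num

/-- the number of copies -/
lemma exists_k {ε : ℝ} (hε : 0 < ε) (hε1 : ε ≤ 1) {p : ℝ} (hp : 0 < p) (r : ℕ) (hr1 : 1 ≤ r) :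
    16 * r * ((1 - ε) * p ^ 2) ^ ⌈Real.log (16 * r) / ε⌉₊ ≤
      p ^ (2 * ⌈Real.log (16 * r) / ε⌉₊) := by
  set k := ⌈Real.log (16 * r) / ε⌉₊ with hk
  have hr' : (1 : ℝ) ≤ r := by exact_mod_cast hr1
  have h0 : (0 : ℝ) < 16 * r := by positivity
  have h1 : (1 - ε) ^ k ≤ Real.exp (-ε * k) := by
    have h2 : 1 - ε ≤ Real.exp (-ε) := by
      have := Real.add_one_le_exp (-ε)
      linarith
    calc (1 - ε) ^ k ≤ (Real.exp (-ε)) ^ k := pow_le_pow_left₀ (by linarith) h2 k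
      _ = Real.exp (-ε * k) := by rw [← Real.exp_nat_mul]; congr 1; ring
  have h2 : Real.exp (-ε * k) ≤ (16 * (r : ℝ))⁻¹ := by
    rw [show (16 * (r : ℝ))⁻¹ = Real.exp (-Real.log (16 * r)) by
      rw [Real.exp_neg, Real.exp_log h0]]
    refine Real.exp_le_exp.2 ?_
    have h3 : Real.log (16 * r) / ε ≤ k := Nat.le_ceil _
    rw [div_le_iff₀ hε] at h3
    linarith
  have h3 : 16 * r * (1 - ε) ^ k ≤ 1 := by
    have := mul_le_mul_of_nonneg_left (h1.trans h2) h0.le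
    rwa [mul_inv_cancel₀ h0.ne'] at this
  rw [mul_pow, ← pow_mul, ← mul_assoc]
  calc 16 * r * (1 - ε) ^ k * p ^ (2 * k) ≤ 1 * p ^ (2 * k) :=
        mul_le_mul_of_nonneg_right h3 (by positivity)
    _ = _ := one_mul _

/-- `log (16 r) ≤ 0.7 (log₂ r + 4)` -/
lemma log16 (r : ℕ) (hr1 : 1 ≤ r) : Real.log (16 * r) ≤ 0.7 * (Real.logb 2 r + 4) := by
  have hr' : (1 : ℝ) ≤ r := by exact_mod_cast hr1
  have h1 : Real.log (16 * r) = Real.log 2 * (Real.logb 2 r + 4) := by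
    rw [Real.log_mul (by norm_num) (by positivity), show (16 : ℝ) = 2 ^ 4 by norm_num,
      Real.log_pow, Real.logb]
    have : Real.log 2 ≠ 0 := (Real.log_pos (by norm_num)).ne'
    field_simp
    push_cast
    ring
  rw [h1]
  have hl2 : 0 ≤ Real.logb 2 (r : ℝ) := Real.logb_nonneg (by norm_num) hr'
  refine mul_le_mul_of_nonneg_right ?_ (by linarith)
  have := Real.log_two_lt_d9
  linarith

/-- **the general bound** -/
theorem chromatic_bound (G : SimpleGraph V) [DecidableRel G.Adj] (r : ℕ) (hr1 : 1 ≤ r)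
    (hr : (G.adjMatrix ℝ).rank ≤ r) {p ε : ℝ} (hp : 0 < p) (hp1 : p ≤ 1) (hε : 0 < ε)
    (hε1 : ε ≤ 1) (h : Sets G p ((1 - ε) * p ^ 2)) :
    Real.logb 2 (G.chromaticNumber.toNat : ℝ) ≤
      (0.7 * (Real.logb 2 r + 4) / ε + 1) * Real.logb 2 (1 / p) + Real.logb 2 r + 4 := by
  have h1 := chromatic_of_sets G r hr1 hr hp hp1 h ⌈Real.log (16 * r) / ε⌉₊
    (mul_nonneg (by linarith) (by positivity)) (exists_k hε hε1 hp r hr1)
  have hr' : (1 : ℝ) ≤ r := by exact_mod_cast hr1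
  have hl1 : 0 ≤ Real.logb 2 (1 / p) :=
    Real.logb_nonneg (by norm_num) (by rw [le_div_iff₀ hp]; linarith)
  have h0 : 0 ≤ Real.log (16 * r) := Real.log_nonneg (by linarith)
  have h2 : (⌈Real.log (16 * r) / ε⌉₊ : ℝ) ≤ 0.7 * (Real.logb 2 r + 4) / ε + 1 := by
    have h3 := (Nat.ceil_lt_add_one (show 0 ≤ Real.log (16 * r) / ε by positivity)).le
    have h4 : Real.log (16 * r) / ε ≤ 0.7 * (Real.logb 2 r + 4) / ε :=
      div_le_div_of_nonneg_right (log16 r hr1) hε.le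
    linarith
  have h3 := mul_le_mul_of_nonneg_right h2 hl1
  linarith

end Pool.Agent.J4H62.VC
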