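import Pool.Agent.R934.LR.Chrom
import Pool.Agent.H974R3.RankEmb

/-!
# Graphs of small rank with random sets of vertices that contain few edges

If a random set `S` of vertices contains every vertex with probability at least `p` and every edge
with probability at most `q`, then the intersections of `k` independent copies contain large stable
sets as soon as `16 r q ^ k ≤ p ^ (2 k)`.
-/

set_option autoImplicit false

namespace Pool.Agent.J4H62.VC

open Finset
open Pool.Agent.R934.LR (Stab)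

variable {V : Type} [Fintype V] [DecidableEq V]

/-- sparse sets contain large stable sets -/
lemma stable_of_sparse (G : SimpleGraph V) [DecidableRel G.Adj] (r : ℕ) (hr1 : 1 ≤ r)
    (hr : (G.adjMatrix ℝ).rank ≤ r) (W : Finset V)
    (h : 8 * r * ((W ×ˢ W).filter (fun p => G.Adj p.1 p.2)).card ≤ W.card ^ 2) :
    ∃ S ⊆ W, Stab G S ∧ W.card ≤ 4 * S.card := by
  classical
  set X := W.filter (fun v => (W.filter (fun u => G.Adj v u)).card * (4 * r) ≤ W.card) with hX
  set Y := W.filter (fun v => ¬ (W.filter (fun u => G.Adj v u)).card * (4 * r) ≤ W.card) with hY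
  have hXY : X.card + Y.card = W.card := card_filter_add_card_filter_not _
  have hE : ((W ×ˢ W).filter (fun p => G.Adj p.1 p.2)).card =
      ∑ v ∈ W, (W.filter (fun u => G.Adj v u)).card := by
    rw [card_filter, sum_product]
    refine sum_congr rfl fun v _ => ?_
    rw [card_filter]
  have h1 : Y.card * W.card ≤ ((W ×ˢ W).filter (fun p => G.Adj p.1 p.2)).card * (4 * r) := by
    rw [hE, sum_mul]
    calc Y.card * W.card = ∑ v ∈ Y, W.card := by rw [sum_const, smul_eq_mul]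
      _ ≤ ∑ v ∈ Y, (W.filter (fun u => G.Adj v u)).card * (4 * r) := by
          refine sum_le_sum fun v hv => ?_
          have := (mem_filter.1 hv).2
          omega
      _ ≤ _ := sum_le_sum_of_subset (filter_subset _ _)
  have h2 : W.card ≤ 2 * X.card := by
    rcases Nat.eq_zero_or_pos W.card with h0 | h0
    · omega
    · have h3 : 2 * Y.card * W.card ≤ W.card * W.card := by nlinarith
      have h4 : 2 * Y.card ≤ W.card := Nat.le_of_mul_le_mul_right h3 h0
      omega
  have hdim : Module.finrank ℝ (Submodule.span ℝ (Set.range (fun x : V => (G.adjMatrix ℝ) x))) ≤ r := by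
    rw [Pool.Agent.H974R3.RC.finrank_rows]
    exact hr
  obtain ⟨S, hSX, hSc, hS⟩ := Pool.Agent.H974R3.RC.pure_of
    (Submodule.span ℝ (Set.range (fun x : V => (G.adjMatrix ℝ) x))) r hr1 hdim
    (fun x y => (G.adjMatrix ℝ) x y) X X (fun x _ => Submodule.subset_span ⟨x, rfl⟩) (by
      intro x hx
      have h5 : (X.filter (fun y => (G.adjMatrix ℝ) x y ≠ 0)).card ≤
          (W.filter (fun u => G.Adj x u)).card := by
        refine card_le_card fun y hy => ?_
        rw [mem_filter] at hy ⊢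
        refine ⟨(mem_filter.1 hy.1).1, ?_⟩
        by_contra hn
        exact hy.2 (by simp [SimpleGraph.adjMatrix_apply, hn])
      have h6 := (mem_filter.1 hx).2
      have h7 : (X.filter (fun y => (G.adjMatrix ℝ) x y ≠ 0)).card * (4 * r) ≤ W.card :=
        (Nat.mul_le_mul_right _ h5).trans h6
      have h8 : 2 * ((X.filter (fun y => (G.adjMatrix ℝ) x y ≠ 0)).card * (2 * r)) ≤
          2 * X.card := by
        refine le_trans (le_of_eq ?_) (h7.trans h2)
        ring
      omega)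
  refine ⟨S, hSX.trans (filter_subset _ _), ?_, by omega⟩
  intro u hu v hv huv
  have := hS u (hSX hu) v hv
  simp [SimpleGraph.adjMatrix_apply, huv] at this

/-- a random set of vertices contains every vertex with probability at least `p` and every edge
with probability at most `q` -/
def Sets (G : SimpleGraph V) (p q : ℝ) : Prop :=
  ∃ w : Finset V → ℝ, (∀ S, 0 ≤ w S) ∧ ∑ S, w S = 1 ∧
    (∀ v, p ≤ ∑ S with v ∈ S, w S) ∧ ∀ u v, G.Adj u v → ∑ S with u ∈ S ∧ v ∈ S, w S ≤ q

/-- intersections of independent copies -/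
lemma sum_inter (w : Finset V → ℝ) (k : ℕ) (P : Finset V → Prop) [DecidablePred P] :
    ∑ ω : Fin k → Finset V, (∏ i, w (ω i)) * (if ∀ i, P (ω i) then 1 else 0) =
      (∑ S with P S, w S) ^ k := by
  rw [sum_filter, Fintype.sum_pow]
  refine sum_congr rfl fun ω _ => ?_
  by_cases h : ∀ i, P (ω i)
  · rw [if_pos h, mul_one]
    exact prod_congr rfl fun i _ => (if_pos (h i)).symm
  · rw [if_neg h, mul_zero]
    push Not at h
    obtain ⟨i, hi⟩ := h
    exact (prod_eq_zero (mem_univ i) (if_neg hi)).symm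

/-- the square of the mean is at most the mean of the square -/
lemma sq_mean {ι : Type*} [Fintype ι] (m : ι → ℝ) (hm0 : ∀ i, 0 ≤ m i) (hm1 : ∑ i, m i = 1)
    (x : ι → ℝ) : (∑ i, m i * x i) ^ 2 ≤ ∑ i, m i * x i ^ 2 := by
  set μ := ∑ i, m i * x i with hμ
  have h1 : 0 ≤ ∑ i, m i * (x i - μ) ^ 2 :=
    sum_nonneg fun i _ => mul_nonneg (hm0 i) (sq_nonneg _)
  have h2 : ∑ i, m i * (x i - μ) ^ 2 =
      ∑ i, m i * x i ^ 2 - 2 * μ * ∑ i, m i * x i + μ ^ 2 * ∑ i, m i := by
    have h3 : ∀ i, m i * (x i - μ) ^ 2 =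
        m i * x i ^ 2 - 2 * μ * (m i * x i) + μ ^ 2 * m i := fun i => by ring
    rw [sum_congr rfl fun i _ => h3 i, sum_add_distrib, sum_sub_distrib, ← mul_sum, ← mul_sum]
  rw [h2, hm1, ← hμ] at h1
  nlinarith

/-- every set of vertices has a large stable subset -/
lemma large_stable (G : SimpleGraph V) [DecidableRel G.Adj] (r : ℕ) (hr1 : 1 ≤ r)
    (hr : (G.adjMatrix ℝ).rank ≤ r) {p q : ℝ} (hp : 0 < p) (h : Sets G p q) (k : ℕ)
    (hq : 0 ≤ q) (hk : 16 * r * q ^ k ≤ p ^ (2 * k)) (X : Finset V) :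
    ∃ S ⊆ X, Stab G S ∧ X.card * p ^ k ≤ 6 * S.card := by
  classical
  obtain ⟨w, hw0, hw1, hwp, hwq⟩ := h
  set m : (Fin k → Finset V) → ℝ := fun ω => ∏ i, w (ω i) with hm
  set T : (Fin k → Finset V) → Finset V := fun ω => X.filter (fun v => ∀ i, v ∈ ω i) with hT
  set E : (Fin k → Finset V) → ℝ := fun ω =>
    (((T ω ×ˢ T ω).filter (fun p => G.Adj p.1 p.2)).card : ℝ) with hE
  have hm0 : ∀ ω, 0 ≤ m ω := fun ω => prod_nonneg fun i _ => hw0 _
  have hm1 : ∑ ω, m ω = 1 := by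
    have := sum_inter w k (fun _ => True)
    simp only [implies_true, if_true, mul_one, filter_true, hw1, one_pow] at this
    exact this
  -- expectation of the size
  have hc : X.card * p ^ k ≤ ∑ ω, m ω * (T ω).card := by
    have h1 : ∀ ω, m ω * (T ω).card = ∑ v ∈ X, m ω * (if ∀ i, v ∈ ω i then 1 else 0) := by
      intro ω
      rw [← mul_sum, hT]
      congr 1
      rw [card_filter]
      push_cast
      rfl
    rw [sum_congr rfl fun ω _ => h1 ω, sum_comm, ← nsmul_eq_mul]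
    refine card_nsmul_le_sum _ _ _ fun v _ => ?_
    rw [sum_inter w k (fun S => v ∈ S)]
    exact pow_le_pow_left₀ hp.le (hwp v) k
  -- expectation of the number of edges
  have he : ∑ ω, m ω * E ω ≤ (X.card : ℝ) ^ 2 * q ^ k := by
    have h1 : ∀ ω, m ω * E ω = ∑ a ∈ (X ×ˢ X).filter (fun p => G.Adj p.1 p.2),
        m ω * (if ∀ i, a.1 ∈ ω i ∧ a.2 ∈ ω i then 1 else 0) := by
      intro ω
      rw [← mul_sum, hE]
      congr 1
      rw [sum_boole]
      beta_reduce
      congr 2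
      ext ⟨a, b⟩
      simp only [hT, mem_filter, mem_product]
      constructor
      · rintro ⟨⟨⟨h1, h2⟩, h3, h4⟩, h5⟩
        exact ⟨⟨⟨h1, h3⟩, h5⟩, fun i => ⟨h2 i, h4 i⟩⟩
      · rintro ⟨⟨⟨h1, h3⟩, h5⟩, h6⟩
        exact ⟨⟨⟨h1, fun i => (h6 i).1⟩, h3, fun i => (h6 i).2⟩, h5⟩
    rw [sum_congr rfl fun ω _ => h1 ω, sum_comm]
    have h2 : ∀ a ∈ (X ×ˢ X).filter (fun p => G.Adj p.1 p.2),
        ∑ ω, m ω * (if ∀ i, a.1 ∈ ω i ∧ a.2 ∈ ω i then 1 else 0) ≤ q ^ k := by
      intro a ha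
      rw [sum_inter w k (fun S => a.1 ∈ S ∧ a.2 ∈ S)]
      exact pow_le_pow_left₀ (sum_nonneg fun S _ => hw0 S) (hwq _ _ (mem_filter.1 ha).2) k
    refine (sum_le_card_nsmul _ _ _ h2).trans ?_
    rw [nsmul_eq_mul]
    refine mul_le_mul_of_nonneg_right ?_ (pow_nonneg hq k)
    have h3 : ((X ×ˢ X).filter (fun p => G.Adj p.1 p.2)).card ≤ X.card * X.card := by
      refine (card_filter_le _ _).trans ?_
      rw [card_product]
    have h4 : (((X ×ˢ X).filter (fun p => G.Adj p.1 p.2)).card : ℝ) ≤ X.card * X.card := by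
      exact_mod_cast h3
    rw [sq]
    exact h4
  -- second moment
  have hsq : (X.card * p ^ k) ^ 2 ≤ ∑ ω, m ω * ((T ω).card : ℝ) ^ 2 := by
    have h1 := sq_mean m hm0 hm1 (fun ω => ((T ω).card : ℝ))
    refine le_trans ?_ h1
    exact pow_le_pow_left₀ (by positivity) hc 2
  have hex : ∃ ω, (X.card * p ^ k) ^ 2 / 2 ≤ ((T ω).card : ℝ) ^ 2 - 8 * r * E ω := by
    by_contra hcon
    push Not at hcon
    have h1 : ∑ ω, m ω * (((T ω).card : ℝ) ^ 2 - 8 * r * E ω) <
        (X.card * p ^ k) ^ 2 / 2 := by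
      have h2 : ∑ ω, m ω * ((X.card * p ^ k) ^ 2 / 2) = (X.card * p ^ k) ^ 2 / 2 := by
        rw [← sum_mul, hm1, one_mul]
      rw [← h2]
      refine sum_lt_sum (fun ω _ => mul_le_mul_of_nonneg_left (hcon ω).le (hm0 ω)) ?_
      have h3 : ∃ ω ∈ (univ : Finset (Fin k → Finset V)), 0 < m ω := by
        by_contra h4
        push Not at h4
        have : ∑ ω, m ω ≤ 0 := sum_nonpos fun ω hω => h4 ω hω
        linarith
      obtain ⟨ω, hω, h4⟩ := h3
      exact ⟨ω, hω, mul_lt_mul_of_pos_left (hcon ω) h4⟩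
    have h2 : ∑ ω, m ω * (((T ω).card : ℝ) ^ 2 - 8 * r * E ω) =
        ∑ ω, m ω * ((T ω).card : ℝ) ^ 2 - 8 * r * ∑ ω, m ω * E ω := by
      rw [mul_sum, ← sum_sub_distrib]
      refine sum_congr rfl fun ω _ => ?_
      ring
    rw [h2] at h1
    have h3 : 8 * r * ∑ ω, m ω * E ω ≤ 8 * r * ((X.card : ℝ) ^ 2 * q ^ k) :=
      mul_le_mul_of_nonneg_left he (by positivity)
    have h4 : 8 * r * ((X.card : ℝ) ^ 2 * q ^ k) ≤ (X.card * p ^ k) ^ 2 / 2 := by
      have h5 : (X.card : ℝ) ^ 2 * (16 * r * q ^ k) ≤ (X.card : ℝ) ^ 2 * p ^ (2 * k) :=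
        mul_le_mul_of_nonneg_left hk (by positivity)
      rw [mul_pow, ← pow_mul, mul_comm k 2]
      linarith
    linarith
  obtain ⟨ω, hω⟩ := hex
  have hE0 : 0 ≤ 8 * (r : ℝ) * E ω := by positivity
  have h1 : 8 * r * ((T ω ×ˢ T ω).filter (fun p => G.Adj p.1 p.2)).card ≤ (T ω).card ^ 2 := by
    have h2 : 8 * (r : ℝ) * E ω ≤ ((T ω).card : ℝ) ^ 2 := by
      have : 0 ≤ (X.card * p ^ k) ^ 2 / 2 := by positivity
      linarith
    simp only [hE] at h2
    exact_mod_cast h2
  obtain ⟨S, hST, hS, hSc⟩ := stable_of_sparse G r hr1 hr _ h1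
  refine ⟨S, hST.trans (filter_subset _ _), hS, ?_⟩
  have h2 : ((T ω).card : ℝ) ≤ 4 * S.card := by exact_mod_cast hSc
  have h3 : (X.card * p ^ k) ^ 2 ≤ (6 * (S.card : ℝ)) ^ 2 := by
    have h4 : ((T ω).card : ℝ) ^ 2 ≤ (4 * S.card) ^ 2 := pow_le_pow_left₀ (by positivity) h2 2
    nlinarith
  exact (pow_le_pow_iff_left₀ (by positivity) (by positivity) two_ne_zero).1 h3

end Pool.Agent.J4H62.VC
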