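import Pool.Agent.J4H62.VC.Trans

/-!
# Edge-transitive graphs are vertex-transitive or bipartite
-/

set_option autoImplicit false

namespace Pool.Agent.J4H62.VC

open Finset

variable {V : Type} [Fintype V] [DecidableEq V]

omit [Fintype V] [DecidableEq V] in
lemma vtrans_or (G : SimpleGraph V) (hE : ETrans G) (hiso : ∀ v, ∃ w, G.Adj v w) :
    VTrans G ∨ G.Colorable 2 := by
  classical
  by_cases hV : VTrans G
  · exact Or.inl hV
  · right
    unfold VTrans at hV
    push Not at hV
    obtain ⟨a, b, hab⟩ := hV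
    obtain ⟨c, hac⟩ := hiso a
    -- every vertex is in the orbit of `a` or of `c`
    have h1 : ∀ v, (∃ g : G ≃g G, g v = a) ∨ ∃ g : G ≃g G, g v = c := by
      intro v
      obtain ⟨w, hvw⟩ := hiso v
      obtain ⟨g, hg | hg⟩ := hE v w a c hvw hac
      · exact Or.inl ⟨g, hg.1⟩
      · exact Or.inr ⟨g, hg.1⟩
    -- the two orbits are different
    have h2 : ∀ v, ¬ ((∃ g : G ≃g G, g v = a) ∧ ∃ g : G ≃g G, g v = c) := by
      rintro v ⟨⟨g, hg⟩, g', hg'⟩
      rcases h1 b with ⟨k, hk⟩ | ⟨k, hk⟩
      · refine hab k⁻¹ ?_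
        rw [← hk]
        exact k.symm_apply_apply b
      · refine hab (k⁻¹ * (g' * g⁻¹)) ?_
        have e1 : g⁻¹ a = v := by rw [← hg]; exact g.symm_apply_apply v
        show k⁻¹ (g' (g⁻¹ a)) = b
        rw [e1, hg', ← hk]
        exact k.symm_apply_apply b
    refine ⟨SimpleGraph.Coloring.mk (fun v => if ∃ g : G ≃g G, g v = a then 0 else 1) ?_⟩
    intro v w hvw heq
    obtain ⟨g, hg | hg⟩ := hE v w a c hvw hac
    · rw [if_pos ⟨g, hg.1⟩] at heq
      by_cases h3 : ∃ g : G ≃g G, g w = a
      · exact h2 w ⟨h3, g, hg.2⟩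
      · rw [if_neg h3] at heq
        exact absurd heq (by decide)
    · rw [if_pos (c := ∃ g : G ≃g G, g w = a) ⟨g, hg.2⟩] at heq
      by_cases h3 : ∃ g : G ≃g G, g v = a
      · exact h2 v ⟨h3, g, hg.1⟩
      · rw [if_neg h3] at heq
        exact absurd heq (by decide)

/-- vertex-transitive graphs are regular -/
lemma degree_eq (G : SimpleGraph V) [DecidableRel G.Adj] (hV : VTrans G) (v : V) :
    G.degree v = G.maxDegree := by
  have : Nonempty V := ⟨v⟩
  obtain ⟨w, hw⟩ := G.exists_maximal_degree_vertex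
  obtain ⟨g, hg⟩ := hV w v
  rw [hw, ← hg]
  exact g.degree_eq w

/-- **edge-transitive graphs without isolated vertices** -/
theorem chromatic_edge_transitive (G : SimpleGraph V) [DecidableRel G.Adj] (r : ℕ) (hr1 : 1 ≤ r)
    (hr : (G.adjMatrix ℝ).rank ≤ r) (hiso : ∀ v, ∃ w, G.Adj v w) (hE : ETrans G)
    {μ : ℝ} (hμ : 0 < μ) (f : V → ℝ) (hf : f ≠ 0)
    (h : ∑ v, ∑ w, (if G.Adj v w then f v * f w else 0) ≤ -μ * ∑ v, f v ^ 2) :
    Real.logb 2 (G.chromaticNumber.toNat : ℝ) ≤
      G.maxDegree / μ * (3 * Real.logb 2 r + 10) := by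
  have hd : ∀ _ : V, 0 < G.maxDegree := by
    intro v
    obtain ⟨w, hw⟩ := hiso v
    have h1 : 0 < G.degree v := by
      rw [SimpleGraph.degree_pos_iff_exists_adj]
      exact ⟨w, hw⟩
    exact h1.trans_le (G.degree_le_maxDegree v)
  obtain ⟨v, hv⟩ := Function.ne_iff.1 hf
  rcases vtrans_or G hE hiso with hV | hc
  · exact chromatic_of_eigen G r hr1 hr hV hE (degree_eq G hV) (hd v) hμ f hf h
  · have hr' : (1 : ℝ) ≤ r := by exact_mod_cast hr1
    have hl : 0 ≤ Real.logb 2 (r : ℝ) := Real.logb_nonneg (by norm_num) hr'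
    -- the least eigenvalue is at least minus the maximum degree
    have h1 : μ ≤ G.maxDegree := by
      have h2 : -(∑ v, ∑ w, (if G.Adj v w then f v * f w else 0)) ≤
          G.maxDegree * ∑ v, f v ^ 2 := by
        have h3 : ∀ v, ∑ w, (if G.Adj v w then f v ^ 2 else 0) ≤ G.maxDegree * f v ^ 2 := by
          intro v
          rw [← sum_filter, sum_const, nsmul_eq_mul, ← SimpleGraph.neighborFinset_eq_filter,
            SimpleGraph.card_neighborFinset_eq_degree]
          refine mul_le_mul_of_nonneg_right ?_ (sq_nonneg _)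
          exact_mod_cast G.degree_le_maxDegree v
        have h4 : ∀ v w, -(if G.Adj v w then f v * f w else 0) ≤
            (if G.Adj v w then f v ^ 2 else 0) / 2 + (if G.Adj w v then f w ^ 2 else 0) / 2 := by
          intro v w
          by_cases hvw : G.Adj v w
          · rw [if_pos hvw, if_pos hvw, if_pos hvw.symm]
            nlinarith [sq_nonneg (f v + f w)]
          · rw [if_neg hvw, if_neg hvw, if_neg (fun h => hvw h.symm)]
            norm_num
        have h5 : ∑ v, ∑ w, -(if G.Adj v w then f v * f w else 0) ≤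
            ∑ v, ∑ w, ((if G.Adj v w then f v ^ 2 else 0) / 2 +
              (if G.Adj w v then f w ^ 2 else 0) / 2) :=
          sum_le_sum fun v _ => sum_le_sum fun w _ => h4 v w
        have h6 : ∑ v, ∑ w, ((if G.Adj v w then f v ^ 2 else 0) / 2 +
              (if G.Adj w v then f w ^ 2 else 0) / 2) =
            ∑ v, ∑ w, (if G.Adj v w then f v ^ 2 else 0) := by
          simp only [sum_add_distrib]
          rw [sum_comm (f := fun v w => (if G.Adj w v then f w ^ 2 else 0) / 2),
            ← sum_add_distrib]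
          refine sum_congr rfl fun v _ => ?_
          rw [← sum_add_distrib]
          refine sum_congr rfl fun w _ => ?_
          ring
        have h7 : ∑ v, ∑ w, (if G.Adj v w then f v ^ 2 else 0) ≤
            G.maxDegree * ∑ v, f v ^ 2 := by
          rw [mul_sum]
          exact sum_le_sum fun v _ => h3 v
        simp only [sum_neg_distrib] at h5
        linarith
      have hfs : 0 < ∑ v, f v ^ 2 :=
        sum_pos' (fun _ _ => sq_nonneg _) ⟨v, mem_univ v, by
          have : f v ≠ 0 := hv
          positivity⟩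
      have h3 : μ * ∑ v, f v ^ 2 ≤ G.maxDegree * ∑ v, f v ^ 2 := by linarith
      exact le_of_mul_le_mul_right h3 hfs
    have h2 : (1 : ℝ) ≤ G.maxDegree / μ := by rwa [le_div_iff₀ hμ, one_mul]
    refine logb_chromatic_le G hc ?_ (by positivity)
    rw [Nat.cast_ofNat, Real.logb_self_eq_one (by norm_num)]
    nlinarith

end Pool.Agent.J4H62.VC
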