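import Pool.Agent.J4H62.VC.Loc

/-!
# The question for edge-transitive graphs and sparse spots
-/

set_option autoImplicit false

namespace Pool.Agent.J4H62.VC

open Finset

variable {V : Type} [Fintype V] [DecidableEq V]

/-- a large colour class -/
lemma exists_class (G : SimpleGraph V) [Nonempty V] :
    ∃ W : Finset V, W.Nonempty ∧ (∀ u ∈ W, ∀ v ∈ W, ¬ G.Adj u v) ∧
      Real.logb 2 (Fintype.card V / W.card) ≤ Real.logb 2 (G.chromaticNumber.toNat : ℝ) := by
  classical
  have hcol : G.Colorable G.chromaticNumber.toNat :=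
    G.colorable_chromaticNumber_of_fintype
  obtain ⟨I, hI, hIc⟩ := Pool.TH815.LS.indep_of_colorable G _ hcol
  have hn : 0 < Fintype.card V := Fintype.card_pos
  have h1 : 0 < G.chromaticNumber.toNat * I.card := by omega
  have hI0 : 0 < I.card := Nat.pos_of_mul_pos_left h1 |> fun _ => by
    rcases Nat.eq_zero_or_pos I.card with h | h
    · rw [h, mul_zero] at h1
      omega
    · exact h
  refine ⟨I, card_pos.1 hI0, hI, ?_⟩
  have hI' : (0 : ℝ) < I.card := by exact_mod_cast hI0
  have hn' : (0 : ℝ) < Fintype.card V := by exact_mod_cast hn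
  refine Real.logb_le_logb_of_le (by norm_num) (by positivity) ?_
  rw [div_le_iff₀ hI']
  exact_mod_cast hIc

end Pool.Agent.J4H62.VC
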