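import Pool.Agent.J4H62.VC.Col

/-!
# Random sets of vertices from random functions
-/

set_option autoImplicit false

namespace Pool.Agent.J4H62.VC

open Finset
open Pool.Agent.R934.LR (Stab)

variable {V : Type} [Fintype V] [DecidableEq V]

/-- summing a product over all sets -/
lemma sum_prod_ite (a b : V → ℝ) :
    ∑ S : Finset V, ∏ v, (if v ∈ S then a v else b v) = ∏ v, (a v + b v) := by
  rw [prod_add, powerset_univ]
  refine sum_congr rfl fun S _ => ?_
  rw [← prod_mul_prod_compl S, compl_eq_univ_sdiff]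
  congr 1
  · exact prod_congr rfl fun v hv => if_pos hv
  · exact prod_congr rfl fun v hv => if_neg (by
      rw [mem_sdiff] at hv
      exact hv.2)

/-- summing a product over the sets which contain `u` -/
lemma sum_prod_mem (a b : V → ℝ) (u : V) :
    ∑ S : Finset V with u ∈ S, ∏ v, (if v ∈ S then a v else b v) =
      ∏ v, (a v + if v = u then 0 else b v) := by
  rw [← sum_prod_ite a (fun v => if v = u then 0 else b v), sum_filter]
  refine sum_congr rfl fun S _ => ?_
  by_cases hu : u ∈ S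
  · rw [if_pos hu]
    refine prod_congr rfl fun v _ => ?_
    by_cases hv : v ∈ S
    · rw [if_pos hv, if_pos hv]
    · rw [if_neg hv, if_neg hv, if_neg (show ¬ v = u from fun h => hv (h ▸ hu))]
  · rw [if_neg hu]
    refine (prod_eq_zero (mem_univ u) ?_).symm
    rw [if_neg hu, if_pos rfl]

/-- summing a product over the sets which contain `u` and `w` -/
lemma sum_prod_mem2 (a b : V → ℝ) (u w : V) :
    ∑ S : Finset V with u ∈ S ∧ w ∈ S, ∏ v, (if v ∈ S then a v else b v) =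
      ∏ v, (a v + if v = u ∨ v = w then 0 else b v) := by
  rw [← sum_prod_ite a (fun v => if v = u ∨ v = w then 0 else b v), sum_filter]
  refine sum_congr rfl fun S _ => ?_
  by_cases hu : u ∈ S ∧ w ∈ S
  · rw [if_pos hu]
    refine prod_congr rfl fun v _ => ?_
    by_cases hv : v ∈ S
    · rw [if_pos hv, if_pos hv]
    · rw [if_neg hv, if_neg hv, if_neg]
      rintro (rfl | rfl)
      · exact hv hu.1
      · exact hv hu.2
  · rw [if_neg hu]
    rw [not_and_or] at hu
    rcases hu with hu | hu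
    · refine (prod_eq_zero (mem_univ u) ?_).symm
      rw [if_neg hu, if_pos (Or.inl rfl)]
    · refine (prod_eq_zero (mem_univ w) ?_).symm
      rw [if_neg hu, if_pos (Or.inr rfl)]

/-- random functions give random sets -/
lemma sets_of_fun {Ω : Type*} [Fintype Ω] (G : SimpleGraph V) (m : Ω → ℝ) (hm0 : ∀ ω, 0 ≤ m ω)
    (hm1 : ∑ ω, m ω = 1) (g : Ω → V → ℝ) (hg0 : ∀ ω v, 0 ≤ g ω v) (hg1 : ∀ ω v, g ω v ≤ 1)
    {p q : ℝ} (hp : ∀ v, p ≤ ∑ ω, m ω * g ω v)
    (hq : ∀ u v, G.Adj u v → ∑ ω, m ω * (g ω u * g ω v) ≤ q) : Sets G p q := by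
  refine ⟨fun S => ∑ ω, m ω * ∏ v, (if v ∈ S then g ω v else 1 - g ω v), ?_, ?_, ?_, ?_⟩
  · intro S
    refine sum_nonneg fun ω _ => mul_nonneg (hm0 ω) (prod_nonneg fun v _ => ?_)
    by_cases hv : v ∈ S
    · rw [if_pos hv]
      exact hg0 ω v
    · rw [if_neg hv]
      linarith [hg1 ω v]
  · rw [sum_comm]
    have h1 : ∀ ω, ∑ S : Finset V, m ω * ∏ v, (if v ∈ S then g ω v else 1 - g ω v) = m ω := by
      intro ω
      rw [← mul_sum, sum_prod_ite]
      simp
    rw [sum_congr rfl fun ω _ => h1 ω, hm1]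
  · intro u
    refine (hp u).trans (le_of_eq ?_)
    rw [sum_comm]
    refine sum_congr rfl fun ω _ => ?_
    rw [← mul_sum, sum_prod_mem]
    congr 1
    rw [← mul_prod_erase univ _ (mem_univ u)]
    rw [if_pos rfl, add_zero, prod_eq_one, mul_one]
    intro v hv
    rw [if_neg (ne_of_mem_erase hv)]
    ring
  · intro u w huw
    refine le_trans (le_of_eq ?_) (hq u w huw)
    rw [sum_comm]
    refine sum_congr rfl fun ω _ => ?_
    rw [← mul_sum, sum_prod_mem2]
    congr 1
    have hw : w ∈ univ.erase u := mem_erase.2 ⟨huw.ne.symm, mem_univ _⟩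
    rw [← mul_prod_erase univ _ (mem_univ u), ← mul_prod_erase _ _ hw]
    rw [if_pos (Or.inl rfl), if_pos (Or.inr rfl), add_zero, add_zero, prod_eq_one, mul_one]
    intro v hv
    have h1 := ne_of_mem_erase hv
    have h2 := ne_of_mem_erase (mem_of_mem_erase hv)
    rw [if_neg (by rintro (h | h); exacts [h2 h, h1 h])]
    ring

/-- **random functions, rank and chromatic number** -/
theorem chromatic_of_fun {Ω : Type*} [Fintype Ω] (G : SimpleGraph V) [DecidableRel G.Adj] (r : ℕ)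
    (hr1 : 1 ≤ r) (hr : (G.adjMatrix ℝ).rank ≤ r) (m : Ω → ℝ) (hm0 : ∀ ω, 0 ≤ m ω)
    (hm1 : ∑ ω, m ω = 1) (F : V → Ω → ℝ) {B ε : ℝ} (hB : 1 ≤ B) (hF0 : ∀ v ω, 0 ≤ F v ω)
    (hFB : ∀ v ω, F v ω ≤ B) (hF1 : ∀ v, 1 ≤ ∑ ω, m ω * F v ω) (hε : 0 < ε) (hε1 : ε ≤ 1)
    (hF : ∀ u v, G.Adj u v → ∑ ω, m ω * (F u ω * F v ω) ≤ 1 - ε) :
    Real.logb 2 (G.chromaticNumber.toNat : ℝ) ≤
      (0.7 * (Real.logb 2 r + 4) / ε + 1) * Real.logb 2 B + Real.logb 2 r + 4 := by
  have hB0 : 0 < B := by linarith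
  have h1 : Sets G B⁻¹ ((1 - ε) * B⁻¹ ^ 2) := by
    refine sets_of_fun G m hm0 hm1 (fun ω v => B⁻¹ * F v ω) ?_ ?_ ?_ ?_
    · intro ω v
      exact mul_nonneg (by positivity) (hF0 v ω)
    · intro ω v
      rw [inv_mul_le_iff₀ hB0, mul_one]
      exact hFB v ω
    · intro v
      have h2 : ∑ ω, m ω * (B⁻¹ * F v ω) = B⁻¹ * ∑ ω, m ω * F v ω := by
        rw [mul_sum]
        refine sum_congr rfl fun ω _ => ?_
        ring
      rw [h2]
      exact le_mul_of_one_le_right (by positivity) (hF1 v)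
    · intro u v huv
      have h2 : ∑ ω, m ω * (B⁻¹ * F u ω * (B⁻¹ * F v ω)) =
          B⁻¹ ^ 2 * ∑ ω, m ω * (F u ω * F v ω) := by
        rw [mul_sum]
        refine sum_congr rfl fun ω _ => ?_
        ring
      rw [h2, mul_comm]
      exact mul_le_mul_of_nonneg_right (hF u v huv) (by positivity)
  have h2 := chromatic_bound G r hr1 hr (by positivity : 0 < B⁻¹) (inv_le_one_of_one_le₀ hB) hε
    hε1 h1
  rwa [one_div, inv_inv] at h2

end Pool.Agent.J4H62.VC
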