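import Pool.Agent.J4H62.VC.Wedge
import Mathlib.Analysis.SpecialFunctions.Trigonometric.Arctan
import Mathlib.Analysis.Real.Pi.Bounds

/-!
# Hyperplane rounding
-/

set_option autoImplicit false

namespace Pool.Agent.J4H62.VC

open MeasureTheory ProbabilityTheory Set Real
open scoped RealInnerProductSpace

variable {E : Type*} [NormedAddCommGroup E] [InnerProductSpace ℝ E] [FiniteDimensional ℝ E]
  [MeasurableSpace E] [BorelSpace E]

/-- a coordinate -/
lemma law_one {u : E} (hu : ‖u‖ = 1) :
    (stdGaussian E).map (fun g => ⟪u, g⟫) = gaussianReal 0 1 := by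
  have h := IsGaussian.map_eq_gaussianReal (μ := stdGaussian E) (innerSL ℝ u)
  rw [integral_strongDual_stdGaussian, variance_dual_stdGaussian, innerSL_apply_norm, hu] at h
  simpa using h

/-- two orthogonal coordinates -/
lemma law_two {u e : E} (hu : ‖u‖ = 1) (he : ‖e‖ = 1) (hue : ⟪u, e⟫ = 0) :
    (stdGaussian E).map (fun g => (⟪u, g⟫, ⟪e, g⟫)) =
      (gaussianReal 0 1).prod (gaussianReal 0 1) := by
  have h1 : HasGaussianLaw (fun g : E => (⟪u, g⟫, ⟪e, g⟫)) (stdGaussian E) := by
    have h2 : HasGaussianLaw (id : E → E) (stdGaussian E) := IsGaussian.hasGaussianLaw_id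
    exact h2.map_fun ((innerSL ℝ u).prod (innerSL ℝ e))
  have h3 : cov[fun g : E => ⟪u, g⟫, fun g : E => ⟪e, g⟫; stdGaussian E] = 0 := by
    rw [← covarianceBilin_apply_eq_cov IsGaussian.memLp_two_id, covarianceBilin_stdGaussian]
    rw [innerSL_apply_apply]
    exact hue
  have h4 := (h1.indepFun_of_covariance_eq_zero h3).map_prod_eq_prod_map_map
    (by fun_prop) (by fun_prop)
  rw [h4, law_one hu, law_one he]

lemma gauss_half : (gaussianReal 0 1).real (Ioi 0) = 1 / 2 := by
  have h1 := gauss_wedge 0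
  have h2 : wedge 0 = Ioi (0 : ℝ) ×ˢ Ioi (0 : ℝ) := by
    ext ⟨x, y⟩
    simp [wedge]
  rw [h2, measureReal_prod_prod, arctan_zero, sub_zero] at h1
  have h3 : π / 2 / (2 * π) = (1 / 2) * (1 / 2) := by
    have := pi_pos
    field_simp
  rw [h3] at h1
  have h4 : 0 ≤ (gaussianReal 0 1).real (Ioi (0 : ℝ)) := measureReal_nonneg
  nlinarith

/-- half spaces -/
lemma half_space {u : E} (hu : ‖u‖ = 1) :
    (stdGaussian E).real {g | 0 < ⟪u, g⟫} = 1 / 2 := by
  rw [← gauss_half, ← law_one hu, measureReal_def, measureReal_def,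
    Measure.map_apply (by fun_prop) measurableSet_Ioi]
  rfl

/-- **two half spaces** -/
lemma quadrant {u v : E} (hu : ‖u‖ = 1) (hv : ‖v‖ = 1) {ρ : ℝ} (hρ0 : 0 ≤ ρ)
    (hρ : ⟪u, v⟫ = -ρ) :
    (stdGaussian E).real {g | 0 < ⟪u, g⟫ ∧ 0 < ⟪v, g⟫} ≤ 1 / 4 - ρ / (2 * π) := by
  have hpi := pi_pos
  have hρ1 : ρ ≤ 1 := by
    have := abs_real_inner_le_norm u v
    rw [hu, hv, hρ, abs_neg, abs_of_nonneg hρ0] at this
    linarith
  rcases hρ1.lt_or_eq with hlt | heq
  · set s := √(1 - ρ ^ 2) with hs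
    have hs2 : s ^ 2 = 1 - ρ ^ 2 := Real.sq_sqrt (by nlinarith)
    have hs0 : 0 < s := Real.sqrt_pos.2 (by nlinarith)
    set e : E := s⁻¹ • (v + ρ • u) with he
    have huv : ⟪v, u⟫ = -ρ := by rw [real_inner_comm, hρ]
    have huu : ⟪u, u⟫ = 1 := by rw [real_inner_self_eq_norm_sq, hu, one_pow]
    have hvv : ⟪v, v⟫ = 1 := by rw [real_inner_self_eq_norm_sq, hv, one_pow]
    have hue : ⟪u, e⟫ = 0 := by
      rw [he, inner_smul_right, inner_add_right, inner_smul_right, hρ, huu]
      ring
    have hee : ‖e‖ = 1 := by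
      have h1 : ‖e‖ ^ 2 = 1 := by
        rw [← real_inner_self_eq_norm_sq, he, inner_smul_left, inner_smul_right, inner_add_left,
          inner_add_right, inner_add_right, inner_smul_left, inner_smul_right, inner_smul_left,
          inner_smul_right, hρ, huv, huu, hvv]
        simp only [conj_trivial]
        have : s ^ 2 * (s⁻¹ * (s⁻¹ * (1 + ρ * -ρ + (ρ * -ρ + ρ * (ρ * 1))))) = s ^ 2 := by
          field_simp
          rw [hs2]
          ring
        have h2 := mul_left_cancel₀ (pow_ne_zero 2 hs0.ne') (this.trans (mul_one _).symm)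
        exact h2
      have h3 : 0 ≤ ‖e‖ := norm_nonneg e
      nlinarith
    have h1 : (stdGaussian E).real {g | 0 < ⟪u, g⟫ ∧ 0 < ⟪v, g⟫} =
        ((gaussianReal 0 1).prod (gaussianReal 0 1)).real (wedge (ρ / s)) := by
      rw [← law_two hu hee hue, measureReal_def, measureReal_def,
        Measure.map_apply (by fun_prop) (measurableSet_wedge _)]
      congr 2
      ext g
      have h2 : ⟪v, g⟫ = s * ⟪e, g⟫ - ρ * ⟪u, g⟫ := by
        rw [he, inner_smul_left, inner_add_left, inner_smul_left]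
        simp only [conj_trivial]
        field_simp
        ring
      simp only [mem_ofPred_eq, mem_preimage, wedge]
      constructor
      · rintro ⟨h3, h4⟩
        refine ⟨h3, ?_⟩
        rw [h2] at h4
        rw [div_mul_eq_mul_div, div_lt_iff₀ hs0]
        linarith
      · rintro ⟨h3, h4⟩
        refine ⟨h3, ?_⟩
        rw [div_mul_eq_mul_div, div_lt_iff₀ hs0] at h4
        rw [h2]
        linarith
    rw [h1, gauss_wedge]
    have h5 : ρ ≤ arctan (ρ / s) := by
      rw [hs, ← arcsin_eq_arctan ⟨by linarith, hlt⟩]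
      have h6 : sin ρ ≤ ρ := Real.sin_le hρ0
      have h7 : arcsin (sin ρ) ≤ arcsin ρ := monotone_arcsin h6
      rwa [arcsin_sin (by linarith) (by linarith [pi_gt_three])] at h7
    rw [sub_div]
    have h6 : π / 2 / (2 * π) = 1 / 4 := by
      field_simp
      norm_num
    rw [h6]
    have h7 : ρ / (2 * π) ≤ arctan (ρ / s) / (2 * π) :=
      div_le_div_of_nonneg_right h5 (by positivity)
    linarith
  · have h1 : v = -u := by
      have h2 : ‖u + v‖ ^ 2 = 0 := by
        rw [norm_add_sq_real, hu, hv, hρ, heq]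
        norm_num
      have h3 : u + v = 0 := by
        rw [← norm_eq_zero]
        exact pow_eq_zero_iff two_ne_zero |>.1 h2
      exact eq_neg_of_add_eq_zero_right h3
    have h2 : {g : E | 0 < ⟪u, g⟫ ∧ 0 < ⟪v, g⟫} = ∅ := by
      ext g
      simp only [mem_ofPred_eq, mem_empty_iff_false, iff_false, not_and, not_lt]
      intro h3
      rw [h1, inner_neg_left]
      linarith
    rw [h2, measureReal_empty, heq]
    have h3 : 1 / (2 * π) ≤ 1 / 4 := by
      rw [div_le_div_iff₀ (by positivity) (by norm_num)]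
      linarith [pi_gt_three]
    linarith

end Pool.Agent.J4H62.VC
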