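import Pool.Agent.J4H62.VC.Edge

/-!
# Locally sparse graphs and graphs with a sparse spot
-/

set_option autoImplicit false

namespace Pool.Agent.J4H62.VC

open Finset
open Pool.Agent.R934.LR (Stab)

variable {V : Type} [Fintype V] [DecidableEq V]

/-- random functions, simplified bound -/
theorem bound_of_fun {Ω : Type*} [Fintype Ω] (G : SimpleGraph V) [DecidableRel G.Adj] (r : ℕ)
    (hr1 : 1 ≤ r) (hr : (G.adjMatrix ℝ).rank ≤ r) (m : Ω → ℝ) (hm0 : ∀ ω, 0 ≤ m ω)
    (hm1 : ∑ ω, m ω = 1) (F : V → Ω → ℝ) {B ε : ℝ} (hB : 1 ≤ B) (hF0 : ∀ v ω, 0 ≤ F v ω)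
    (hFB : ∀ v ω, F v ω ≤ B) (hF1 : ∀ v, 1 ≤ ∑ ω, m ω * F v ω) (hε : 0 < ε) (hε1 : ε ≤ 1)
    (hF : ∀ u v, G.Adj u v → ∑ ω, m ω * (F u ω * F v ω) ≤ 1 - ε) :
    Real.logb 2 (G.chromaticNumber.toNat : ℝ) ≤
      4 / ε * (Real.logb 2 r + 1) * (Real.logb 2 B + 1) := by
  have h1 := chromatic_of_fun G r hr1 hr m hm0 hm1 F hB hF0 hFB hF1 hε hε1 hF
  have hr' : (1 : ℝ) ≤ r := by exact_mod_cast hr1
  have hl : 0 ≤ Real.logb 2 (r : ℝ) := Real.logb_nonneg (by norm_num) hr'
  have hP : 0 ≤ Real.logb 2 B := Real.logb_nonneg (by norm_num) hB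
  set L := Real.logb 2 (r : ℝ) with hL
  set P := Real.logb 2 B with hPdef
  refine h1.trans ?_
  have hinv : 1 ≤ 1 / ε := by rw [le_div_iff₀ hε]; linarith
  have e1 : 0.7 * (L + 4) / ε = 0.7 * (L + 4) * (1 / ε) := by ring
  have e2 : 4 / ε * (L + 1) * (P + 1) = 4 * (1 / ε) * (L + 1) * (P + 1) := by ring
  rw [e1, e2]
  set z := 1 / ε with hz
  have h2 : 0.7 * (L + 4) * z + 1 ≤ 3.8 * z * (L + 1) := by nlinarith
  have h3 : (0.7 * (L + 4) * z + 1) * P ≤ 3.8 * z * (L + 1) * P :=
    mul_le_mul_of_nonneg_right h2 hP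
  have h4 : L + 4 ≤ 4 * z * (L + 1) := by nlinarith
  have h5 : 0 ≤ z * (L + 1) * P := by positivity
  nlinarith

/-- **neighbourhoods**: the common neighbourhoods of adjacent vertices are small -/
theorem bound_of_nbhd (G : SimpleGraph V) [DecidableRel G.Adj] (r : ℕ)
    (hr1 : 1 ≤ r) (hr : (G.adjMatrix ℝ).rank ≤ r) (m : V → ℝ) (hm0 : ∀ w, 0 ≤ m w)
    (hm1 : ∑ w, m w = 1) {p ε : ℝ} (hp : 0 < p) (hp1 : p ≤ 1) (hε : 0 < ε) (hε1 : ε ≤ 1)
    (hdeg : ∀ v, p ≤ ∑ w with G.Adj v w, m w)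
    (hco : ∀ u v, G.Adj u v → ∑ w with G.Adj u w ∧ G.Adj v w, m w ≤
      (1 - ε) * (∑ w with G.Adj u w, m w) * ∑ w with G.Adj v w, m w) :
    Real.logb 2 (G.chromaticNumber.toNat : ℝ) ≤
      4 / ε * (Real.logb 2 r + 1) * (Real.logb 2 (1 / p) + 1) := by
  set δ : V → ℝ := fun v => ∑ w with G.Adj v w, m w with hδ
  have hδ0 : ∀ v, 0 < δ v := fun v => hp.trans_le (hdeg v)
  refine bound_of_fun G r hr1 hr m hm0 hm1
    (fun v w => if G.Adj v w then (δ v)⁻¹ else 0) (by rw [le_div_iff₀ hp]; linarith) ?_ ?_ ?_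
    hε hε1 ?_
  · intro v w
    by_cases h : G.Adj v w
    · simp only [h, if_true]
      exact (inv_pos.2 (hδ0 v)).le
    · simp [h]
  · intro v w
    by_cases h : G.Adj v w
    · simp only [h, if_true, one_div]
      exact inv_anti₀ hp (hdeg v)
    · simp only [h, if_false]
      positivity
  · intro v
    have h1 : ∑ w, m w * (if G.Adj v w then (δ v)⁻¹ else 0) = δ v * (δ v)⁻¹ := by
      have e : δ v * (δ v)⁻¹ = ∑ w with G.Adj v w, m w * (δ v)⁻¹ := by
        rw [← Finset.sum_mul]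
      rw [e, sum_filter]
      refine sum_congr rfl fun w _ => ?_
      by_cases h : G.Adj v w <;> simp [h]
    rw [h1, mul_inv_cancel₀ (hδ0 v).ne']
  · intro u v huv
    have h1 : ∑ w, m w * ((if G.Adj u w then (δ u)⁻¹ else 0) *
        (if G.Adj v w then (δ v)⁻¹ else 0)) =
        (∑ w with G.Adj u w ∧ G.Adj v w, m w) * ((δ u)⁻¹ * (δ v)⁻¹) := by
      rw [Finset.sum_mul, sum_filter]
      refine sum_congr rfl fun w _ => ?_
      by_cases h : G.Adj u w <;> by_cases h' : G.Adj v w <;> simp [h, h']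
    rw [h1]
    have h2 : 0 < (δ u)⁻¹ * (δ v)⁻¹ := mul_pos (inv_pos.2 (hδ0 u)) (inv_pos.2 (hδ0 v))
    refine (mul_le_mul_of_nonneg_right (hco u v huv) h2.le).trans (le_of_eq ?_)
    have := (hδ0 u).ne'
    have := (hδ0 v).ne'
    change (1 - ε) * δ u * δ v * _ = _
    field_simp

/-- **vertex-transitive graphs, a set `W`**: the automorphisms that map an edge into `W` are fewer
than expected -/
theorem bound_of_vtrans (G : SimpleGraph V) [DecidableRel G.Adj] (r : ℕ)
    (hr1 : 1 ≤ r) (hr : (G.adjMatrix ℝ).rank ≤ r) (hV : VTrans G) (W : Finset V)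
    (hW : W.Nonempty) {ε : ℝ} (hε : 0 < ε) (hε1 : ε ≤ 1)
    (h : ∀ u v, G.Adj u v → (((univ : Finset (G ≃g G)).filter
      (fun g => g u ∈ W ∧ g v ∈ W)).card : ℝ) * (Fintype.card V) ^ 2 ≤
        (1 - ε) * (W.card) ^ 2 * Fintype.card (G ≃g G)) :
    Real.logb 2 (G.chromaticNumber.toNat : ℝ) ≤
      4 / ε * (Real.logb 2 r + 1) * (Real.logb 2 (Fintype.card V / W.card) + 1) := by
  have hΓ := card_aut_pos G
  set γ : ℝ := (Fintype.card (G ≃g G) : ℝ) with hγ
  set n : ℝ := (Fintype.card V : ℝ) with hn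
  have hw : (0 : ℝ) < W.card := by exact_mod_cast hW.card_pos
  have hwn : (W.card : ℝ) ≤ n := by
    rw [hn]
    exact_mod_cast card_le_univ W
  have hn0 : 0 < n := hw.trans_le hwn
  refine bound_of_fun (Ω := G ≃g G) G r hr1 hr (fun _ => γ⁻¹) (fun _ => (inv_pos.2 hΓ).le) ?_
    (fun v g => if g v ∈ W then n / W.card else 0) (by rw [le_div_iff₀ hw]; linarith) ?_ ?_ ?_
    hε hε1 ?_
  · rw [sum_const, nsmul_eq_mul]
    exact mul_inv_cancel₀ hΓ.ne'
  · intro v g
    by_cases h1 : g v ∈ W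
    · rw [if_pos h1]
      positivity
    · rw [if_neg h1]
  · intro v g
    by_cases h1 : g v ∈ W
    · rw [if_pos h1]
    · rw [if_neg h1]
      positivity
  · intro v
    have h1 := avg_vertex hV (fun w => if w ∈ W then (1 : ℝ) else 0) v
    have h2 : ∑ w, (if w ∈ W then (1 : ℝ) else 0) = W.card := by simp
    rw [h2] at h1
    have h3 : ∑ g : G ≃g G, γ⁻¹ * (if g v ∈ W then n / W.card else 0) =
        γ⁻¹ * (n / W.card * ∑ g : G ≃g G, (if g v ∈ W then (1 : ℝ) else 0)) := by
      rw [← mul_sum, mul_sum univ _ (n / W.card)]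
      congr 1
      refine sum_congr rfl fun g _ => ?_
      by_cases h4 : g v ∈ W <;> simp [h4]
    rw [h3]
    have h4 : n * ∑ g : G ≃g G, (if g v ∈ W then (1 : ℝ) else 0) = γ * W.card := h1
    have h5 : n / W.card * ∑ g : G ≃g G, (if g v ∈ W then (1 : ℝ) else 0) = γ := by
      rw [div_mul_eq_mul_div, h4]
      field_simp
    rw [h5, inv_mul_cancel₀ hΓ.ne']
  · intro u v huv
    have h1 : ∑ g : G ≃g G, γ⁻¹ * ((if g u ∈ W then n / W.card else 0) *
        (if g v ∈ W then n / W.card else 0)) =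
        γ⁻¹ * (n / W.card) ^ 2 * (((univ : Finset (G ≃g G)).filter
          (fun g => g u ∈ W ∧ g v ∈ W)).card : ℝ) := by
      rw [← sum_boole, mul_sum]
      refine sum_congr rfl fun g _ => ?_
      by_cases h4 : g u ∈ W
      · by_cases h5 : g v ∈ W
        · rw [if_pos h4, if_pos h5, if_pos ⟨h4, h5⟩, mul_one, sq]
        · rw [if_neg h5, if_neg (show ¬ (g u ∈ W ∧ g v ∈ W) from fun h => h5 h.2), mul_zero,
            mul_zero, mul_zero]
      · rw [if_neg h4, if_neg (show ¬ (g u ∈ W ∧ g v ∈ W) from fun h => h4 h.1), zero_mul,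
          mul_zero, mul_zero]
    rw [h1]
    have h2 := h u v huv
    have h3 : γ⁻¹ * (n / W.card) ^ 2 * (((univ : Finset (G ≃g G)).filter
          (fun g => g u ∈ W ∧ g v ∈ W)).card : ℝ) =
        (γ⁻¹ * ((W.card : ℝ) ^ 2)⁻¹) * ((((univ : Finset (G ≃g G)).filter
          (fun g => g u ∈ W ∧ g v ∈ W)).card : ℝ) * n ^ 2) := by
      rw [div_pow]
      ring
    rw [h3]
    refine (mul_le_mul_of_nonneg_left h2 (by positivity)).trans (le_of_eq ?_)
    field_simp

/-- **vertex-transitive graphs in which every edge is in few triangles** -/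
theorem bound_of_vtrans_triangles (G : SimpleGraph V) [DecidableRel G.Adj] (r : ℕ)
    (hr1 : 1 ≤ r) (hr : (G.adjMatrix ℝ).rank ≤ r) (hV : VTrans G) {ε : ℝ} (hε : 0 < ε)
    (hε1 : ε ≤ 1) (h : ∀ u v, G.Adj u v →
      ((univ.filter (fun w => G.Adj u w ∧ G.Adj v w)).card : ℝ) * Fintype.card V ≤
        (1 - ε) * (G.maxDegree : ℝ) ^ 2) :
    Real.logb 2 (G.chromaticNumber.toNat : ℝ) ≤ 16 / ε * (Real.logb 2 r + 1) ^ 2 := by
  classical
  have hr' : (1 : ℝ) ≤ r := by exact_mod_cast hr1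
  have hl : 0 ≤ Real.logb 2 (r : ℝ) := Real.logb_nonneg (by norm_num) hr'
  have hinv : 1 ≤ 1 / ε := by rw [le_div_iff₀ hε]; linarith
  rcases isEmpty_or_nonempty V with hemp | hne
  · have hc : G.Colorable 1 := ⟨SimpleGraph.Coloring.mk (fun _ => 0)
      (fun {v w} _ => (hemp.false v).elim)⟩
    refine logb_chromatic_le G hc ?_ (by positivity)
    rw [Nat.cast_one, Real.logb_one]
    positivity
  set n : ℝ := (Fintype.card V : ℝ) with hn
  have hn0 : 0 < n := by rw [hn]; exact_mod_cast Fintype.card_pos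
  by_cases hcase : 8 * r * G.maxDegree ≤ Fintype.card V
  · -- the whole graph is sparse
    have h1 : 8 * r * ((univ ×ˢ univ).filter (fun p : V × V => G.Adj p.1 p.2)).card ≤
        (univ : Finset V).card ^ 2 := by
      have h2 : ((univ ×ˢ univ).filter (fun p : V × V => G.Adj p.1 p.2)).card =
          ∑ v : V, G.degree v := by
        rw [card_filter, sum_product]
        refine sum_congr rfl fun v _ => ?_
        rw [← SimpleGraph.card_neighborFinset_eq_degree, SimpleGraph.neighborFinset_eq_filter,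
          card_filter]
      rw [h2, sum_congr rfl fun v _ => degree_eq G hV v, sum_const, smul_eq_mul, card_univ]
      calc 8 * r * (Fintype.card V * G.maxDegree) = (8 * r * G.maxDegree) * Fintype.card V := by
            ring
        _ ≤ Fintype.card V * Fintype.card V := Nat.mul_le_mul_right _ hcase
        _ = _ := by ring
    obtain ⟨S, -, hS, hSc⟩ := stable_of_sparse G r hr1 hr univ h1
    rw [card_univ] at hSc
    have hS0 : S.Nonempty := by
      rw [← card_pos]
      have : 0 < Fintype.card V := Fintype.card_pos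
      omega
    have hSc' : n ≤ 4 * S.card := by rw [hn]; exact_mod_cast hSc
    have hs0 : (0 : ℝ) < S.card := by exact_mod_cast hS0.card_pos
    have h2 := bound_of_vtrans G r hr1 hr hV S hS0 one_pos le_rfl (by
      intro u v huv
      have : (univ : Finset (G ≃g G)).filter (fun g => g u ∈ S ∧ g v ∈ S) = ∅ := by
        rw [filter_eq_empty_iff]
        rintro g - ⟨h3, h4⟩
        exact hS _ h3 _ h4 (g.map_rel_iff'.2 huv)
      rw [this]
      simp)
    have h3 : Real.logb 2 (n / S.card) ≤ 2 := by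
      rw [Real.logb_le_iff_le_rpow (by norm_num) (by positivity), div_le_iff₀ hs0]
      norm_num
      linarith
    refine h2.trans ?_
    have h4 : 4 / (1 : ℝ) * (Real.logb 2 r + 1) * (Real.logb 2 (n / S.card) + 1) ≤
        12 * (Real.logb 2 r + 1) := by
      rw [div_one]
      nlinarith
    refine h4.trans ?_
    have h5 : 16 / ε * (Real.logb 2 (r : ℝ) + 1) ^ 2 =
        16 * (1 / ε) * (Real.logb 2 (r : ℝ) + 1) ^ 2 := by ring
    rw [h5]
    nlinarith [sq_nonneg (Real.logb 2 (r : ℝ))]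
  · push Not at hcase
    have hd0 : 0 < G.maxDegree := by
      rcases Nat.eq_zero_or_pos G.maxDegree with h0 | h0
      · rw [h0] at hcase
        omega
      · exact h0
    have hd : (0 : ℝ) < G.maxDegree := by exact_mod_cast hd0
    have hdn : (G.maxDegree : ℝ) ≤ n := by
      rw [hn]
      obtain ⟨v⟩ := hne
      rw [← degree_eq G hV v, ← SimpleGraph.card_neighborFinset_eq_degree]
      exact_mod_cast card_le_univ _
    have hcase' : n ≤ 8 * r * G.maxDegree := by rw [hn]; exact_mod_cast hcase.le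
    have hsum : ∀ v, ∑ w with G.Adj v w, n⁻¹ = G.maxDegree / n := by
      intro v
      rw [sum_const, nsmul_eq_mul, ← SimpleGraph.neighborFinset_eq_filter,
        SimpleGraph.card_neighborFinset_eq_degree, degree_eq G hV v, div_eq_mul_inv]
    have h1 := bound_of_nbhd G r hr1 hr (fun _ => n⁻¹) (fun _ => by positivity) (by
        rw [sum_const, nsmul_eq_mul]
        exact mul_inv_cancel₀ hn0.ne') (p := G.maxDegree / n) (by positivity)
      (by rw [div_le_one hn0]; exact hdn) hε hε1 (fun v => by rw [hsum v]) (by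
        intro u v huv
        rw [hsum u, hsum v, sum_const, nsmul_eq_mul]
        have h2 := h u v huv
        have h3 := mul_le_mul_of_nonneg_right h2 (show 0 ≤ (n ^ 2)⁻¹ by positivity)
        calc ((univ.filter (fun w => G.Adj u w ∧ G.Adj v w)).card : ℝ) * n⁻¹ =
              ((univ.filter (fun w => G.Adj u w ∧ G.Adj v w)).card : ℝ) * n * (n ^ 2)⁻¹ := by
                field_simp
          _ ≤ (1 - ε) * (G.maxDegree : ℝ) ^ 2 * (n ^ 2)⁻¹ := h3
          _ = (1 - ε) * (G.maxDegree / n) * (G.maxDegree / n) := by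
                field_simp)
    refine h1.trans ?_
    have h2 : Real.logb 2 (1 / (G.maxDegree / n)) ≤ Real.logb 2 r + 3 := by
      have h3 : 1 / (G.maxDegree / n) ≤ r * 2 ^ 3 := by
        rw [one_div_div, div_le_iff₀ hd]
        linarith
      refine (Real.logb_le_logb_of_le (by norm_num) (by positivity) h3).trans (le_of_eq ?_)
      rw [Real.logb_mul (by positivity) (by norm_num), Real.logb_pow,
        Real.logb_self_eq_one (by norm_num)]
      norm_num
    have h3 : 16 / ε * (Real.logb 2 (r : ℝ) + 1) ^ 2 =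
        4 / ε * (Real.logb 2 (r : ℝ) + 1) * (4 * (Real.logb 2 (r : ℝ) + 1)) := by ring
    rw [h3]
    refine mul_le_mul_of_nonneg_left ?_ (by positivity)
    linarith

/-- **edge-transitive graphs with a sparse spot** -/
theorem bound_of_spot (G : SimpleGraph V) [DecidableRel G.Adj] (r : ℕ)
    (hr1 : 1 ≤ r) (hr : (G.adjMatrix ℝ).rank ≤ r) (hiso : ∀ v, ∃ w, G.Adj v w) (hE : ETrans G)
    (W : Finset V) (hW : W.Nonempty) {ε : ℝ} (hε : 0 < ε) (hε1 : ε ≤ 1)
    (h : (((W ×ˢ W).filter (fun a : V × V => G.Adj a.1 a.2)).card : ℝ) * (Fintype.card V) ^ 2 ≤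
        (1 - ε) * (W.card) ^ 2 *
          ((univ : Finset (V × V)).filter (fun a => G.Adj a.1 a.2)).card) :
    Real.logb 2 (G.chromaticNumber.toNat : ℝ) ≤
      4 / ε * (Real.logb 2 r + 1) * (Real.logb 2 (Fintype.card V / W.card) + 1) := by
  classical
  have hw : (0 : ℝ) < W.card := by exact_mod_cast hW.card_pos
  have hwn : (W.card : ℝ) ≤ Fintype.card V := by exact_mod_cast card_le_univ W
  rcases vtrans_or G hE hiso with hV | hc
  · refine bound_of_vtrans G r hr1 hr hV W hW hε hε1 ?_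
    intro u v huv
    have h1 := avg_edge hE (fun a b => if a ∈ W ∧ b ∈ W then (1 : ℝ) else 0)
      (fun a b => by simp only [and_comm]) huv
    rw [sum_boole] at h1
    have h2 : ∑ a ∈ (univ : Finset (V × V)).filter (fun a => G.Adj a.1 a.2),
        (if a.1 ∈ W ∧ a.2 ∈ W then (1 : ℝ) else 0) =
        ((W ×ˢ W).filter (fun a : V × V => G.Adj a.1 a.2)).card := by
      rw [sum_boole, filter_filter]
      congr 2
      ext ⟨a, b⟩
      simp only [mem_filter, mem_univ, true_and, mem_product]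
      tauto
    rw [h2] at h1
    set A : ℝ := (((univ : Finset (V × V)).filter (fun a => G.Adj a.1 a.2)).card : ℝ) with hA
    have hA0 : 0 < A := by
      rw [hA]
      have : 0 < ((univ : Finset (V × V)).filter (fun a => G.Adj a.1 a.2)).card :=
        card_pos.2 ⟨(u, v), mem_filter.2 ⟨mem_univ _, huv⟩⟩
      exact_mod_cast this
    have hΓ := card_aut_pos G
    set γ : ℝ := (Fintype.card (G ≃g G) : ℝ) with hγ
    set n : ℝ := (Fintype.card V : ℝ) with hn
    set X : ℝ := (((univ : Finset (G ≃g G)).filter (fun g => g u ∈ W ∧ g v ∈ W)).card : ℝ)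
    set Y : ℝ := (((W ×ˢ W).filter (fun a : V × V => G.Adj a.1 a.2)).card : ℝ)
    have h3 : A * (X * n ^ 2) ≤ A * ((1 - ε) * (W.card : ℝ) ^ 2 * γ) := by
      calc A * (X * n ^ 2) = A * X * n ^ 2 := by ring
        _ = γ * (Y * n ^ 2) := by
            rw [h1]
            ring
        _ ≤ γ * ((1 - ε) * (W.card : ℝ) ^ 2 * A) := mul_le_mul_of_nonneg_left h hΓ.le
        _ = _ := by ring
    exact le_of_mul_le_mul_left h3 hA0
  · have hr' : (1 : ℝ) ≤ r := by exact_mod_cast hr1
    have hl : 0 ≤ Real.logb 2 (r : ℝ) := Real.logb_nonneg (by norm_num) hr'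
    have hP : 0 ≤ Real.logb 2 ((Fintype.card V : ℝ) / W.card) :=
      Real.logb_nonneg (by norm_num) (by rw [le_div_iff₀ hw]; linarith)
    refine logb_chromatic_le G hc ?_ (by positivity)
    rw [Nat.cast_ofNat, Real.logb_self_eq_one (by norm_num)]
    have hinv : 1 ≤ 1 / ε := by rw [le_div_iff₀ hε]; linarith
    have e : 4 / ε * (Real.logb 2 (r : ℝ) + 1) * (Real.logb 2 (Fintype.card V / W.card) + 1) =
        (1 / ε) * (4 * (Real.logb 2 (r : ℝ) + 1) *
          (Real.logb 2 (Fintype.card V / W.card) + 1)) := by ring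
    rw [e]
    have h1 : 1 ≤ 4 * (Real.logb 2 (r : ℝ) + 1) *
        (Real.logb 2 (Fintype.card V / W.card) + 1) := by nlinarith
    nlinarith

end Pool.Agent.J4H62.VC
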