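import Pool.Agent.J4H62.VC.Col
import Pool.Agent.J4H62.VC.Gauss

/-!
# Random sets of vertices from vector colourings
-/

set_option autoImplicit false

namespace Pool.Agent.J4H62.VC

open Finset MeasureTheory ProbabilityTheory
open scoped RealInnerProductSpace

variable {V : Type} [Fintype V] [DecidableEq V]

/-- a random set given by events on a probability space -/
lemma sets_of_prob {Ω : Type*} [MeasurableSpace Ω] (μ : Measure Ω) [IsProbabilityMeasure μ]
    (G : SimpleGraph V) (T : V → Set Ω) (hT : ∀ v, MeasurableSet (T v)) {p q : ℝ}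
    (hp : ∀ v, p ≤ μ.real (T v)) (hq : ∀ u v, G.Adj u v → μ.real (T u ∩ T v) ≤ q) :
    Sets G p q := by
  classical
  set F : Ω → Finset V := fun ω => univ.filter (fun v => ω ∈ T v) with hF
  have hmeas : ∀ S : Finset V, MeasurableSet {ω | F ω = S} := by
    intro S
    have h1 : {ω | F ω = S} = ⋂ v, (if v ∈ S then T v else (T v)ᶜ) := by
      ext ω
      simp only [Set.mem_ofPred_eq, Set.mem_iInter, hF]
      constructor
      · rintro rfl v
        by_cases hv : ω ∈ T v
        · simp [hv]
        · simp [hv]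
      · intro h
        ext v
        have := h v
        by_cases hv : v ∈ S
        · simp only [hv, if_true] at this
          simp [hv, this]
        · simp only [hv, if_false] at this
          simpa [hv] using this
    rw [h1]
    refine MeasurableSet.iInter fun v => ?_
    by_cases hv : v ∈ S
    · simp only [hv, if_true]
      exact hT v
    · simp only [hv, if_false]
      exact (hT v).compl
  have key : ∀ P : Finset V → Prop, ∑ S with P S, μ.real {ω | F ω = S} =
      μ.real {ω | P (F ω)} := by
    intro P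
    rw [← measureReal_biUnion_finset]
    · congr 1
      ext ω
      simp
    · intro S _ S' _ hne
      refine Set.disjoint_left.2 fun ω h1 h2 => hne ?_
      exact (h1 : F ω = S).symm.trans h2
    · intro S _
      exact hmeas S
  refine ⟨fun S => μ.real {ω | F ω = S}, fun S => measureReal_nonneg, ?_, ?_, ?_⟩
  · have h1 := key (fun _ => True)
    simpa using h1
  · intro v
    have h1 := key (fun S => v ∈ S)
    have h2 : {ω | v ∈ F ω} = T v := by
      ext ω
      simp [hF]
    rw [h2] at h1
    refine (hp v).trans (le_of_eq (h1.symm.trans (sum_congr ?_ fun _ _ => rfl)))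
    ext S
    simp only [mem_filter]
  · intro u v huv
    have h1 := key (fun S => u ∈ S ∧ v ∈ S)
    have h2 : {ω | u ∈ F ω ∧ v ∈ F ω} = T u ∩ T v := by
      ext ω
      simp [hF]
    rw [h2] at h1
    refine le_trans (le_of_eq ((sum_congr ?_ fun _ _ => rfl).trans h1)) (hq u v huv)
    ext S
    simp only [mem_filter]

/-- **vector colourings give random sets** -/
theorem sets_of_vectors {E : Type*} [NormedAddCommGroup E] [InnerProductSpace ℝ E]
    [FiniteDimensional ℝ E] (G : SimpleGraph V) (u : V → E) (hu : ∀ v, ‖u v‖ = 1) {t : ℝ}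
    (ht : 0 < t) (h : ∀ v w, G.Adj v w → ⟪u v, u w⟫ ≤ -(1 / t)) :
    Sets G (1 / 2) ((1 - 2 / (Real.pi * t)) * (1 / 2) ^ 2) := by
  let _ : MeasurableSpace E := borel E
  have : BorelSpace E := ⟨rfl⟩
  have hpi := Real.pi_pos
  refine sets_of_prob (stdGaussian E) G (fun v => {g | 0 < ⟪u v, g⟫}) ?_ ?_ ?_
  · intro v
    exact measurableSet_lt measurable_const (by fun_prop)
  · intro v
    rw [half_space (hu v)]
  · intro v w hvw
    have h1 := quadrant (hu v) (hu w) (ρ := -⟪u v, u w⟫)
      (by have := h v w hvw; have : 0 < 1 / t := by positivity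
          linarith) (by ring)
    have h2 : ({g : E | 0 < ⟪u v, g⟫} ∩ {g | 0 < ⟪u w, g⟫}) =
        {g | 0 < ⟪u v, g⟫ ∧ 0 < ⟪u w, g⟫} := rfl
    rw [h2]
    refine h1.trans ?_
    have h3 := h v w hvw
    have h4 : 1 / t / (2 * Real.pi) ≤ -⟪u v, u w⟫ / (2 * Real.pi) :=
      div_le_div_of_nonneg_right (by linarith) (by positivity)
    have h5 : (1 - 2 / (Real.pi * t)) * (1 / 2) ^ 2 = 1 / 4 - 1 / t / (2 * Real.pi) := by
      field_simp
      ring
    rw [h5]
    linarith

/-- **vector colourings, rank and chromatic number** -/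
theorem chromatic_of_vectors {E : Type*} [NormedAddCommGroup E] [InnerProductSpace ℝ E]
    [FiniteDimensional ℝ E] (G : SimpleGraph V) [DecidableRel G.Adj] (r : ℕ) (hr1 : 1 ≤ r)
    (hr : (G.adjMatrix ℝ).rank ≤ r) (u : V → E) (hu : ∀ v, ‖u v‖ = 1) {t : ℝ}
    (ht : 0 < t) (h : ∀ v w, G.Adj v w → ⟪u v, u w⟫ ≤ -(1 / t)) :
    Real.logb 2 (G.chromaticNumber.toNat : ℝ) ≤ t * (3 * Real.logb 2 r + 10) := by
  have hr' : (1 : ℝ) ≤ r := by exact_mod_cast hr1
  have hl : 0 ≤ Real.logb 2 (r : ℝ) := Real.logb_nonneg (by norm_num) hr'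
  by_cases hE : ∃ v w, G.Adj v w
  · obtain ⟨v, w, hvw⟩ := hE
    have ht1 : 1 ≤ t := by
      have h1 := h v w hvw
      have h2 := abs_real_inner_le_norm (u v) (u w)
      rw [hu, hu, mul_one] at h2
      have h3 := neg_le_of_abs_le h2
      have h4 : 1 / t ≤ 1 := by linarith
      rwa [div_le_one ht] at h4
    have hpi := Real.pi_gt_three
    have hpi' := Real.pi_lt_d2
    have hε1 : 2 / (Real.pi * t) ≤ 1 := by
      rw [div_le_one (by positivity)]
      nlinarith
    have h1 := chromatic_bound G r hr1 hr (by norm_num : (0 : ℝ) < 1 / 2) (by norm_num)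
      (by positivity : 0 < 2 / (Real.pi * t)) hε1 (sets_of_vectors G u hu ht h)
    have h2 : Real.logb 2 (1 / (1 / 2 : ℝ)) = 1 := by
      rw [one_div_one_div]
      exact Real.logb_self_eq_one (by norm_num)
    rw [h2] at h1
    refine h1.trans ?_
    have h3 : 0.7 * (Real.logb 2 (r : ℝ) + 4) / (2 / (Real.pi * t)) =
        0.35 * Real.pi * t * (Real.logb 2 (r : ℝ) + 4) := by
      field_simp
      ring
    rw [h3]
    have h4 : 0.35 * Real.pi * t * (Real.logb 2 (r : ℝ) + 4) ≤
        1.2 * t * (Real.logb 2 (r : ℝ) + 4) := by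
      refine mul_le_mul_of_nonneg_right ?_ (by linarith)
      nlinarith
    nlinarith
  · push Not at hE
    have hc : G.Colorable 1 := ⟨SimpleGraph.Coloring.mk (fun _ => 0)
      (fun {v w} hvw => absurd hvw (hE v w))⟩
    refine logb_chromatic_le G hc ?_ (by positivity)
    rw [Nat.cast_one, Real.logb_one]
    positivity

end Pool.Agent.J4H62.VC
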