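import Pool.Agent.J4H62.VC.Fun
import Pool.Agent.J4H62.VC.Round
import Mathlib.Combinatorics.SimpleGraph.Maps

/-!
# Averages over the automorphism group of a graph
-/

set_option autoImplicit false

namespace Pool.Agent.J4H62.VC

open Finset
open scoped RealInnerProductSpace

variable {V : Type} [Fintype V] [DecidableEq V]

/-- transitive on the vertices -/
def VTrans (G : SimpleGraph V) : Prop := ∀ v w : V, ∃ g : G ≃g G, g v = w

/-- transitive on the edges -/
def ETrans (G : SimpleGraph V) : Prop :=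
  ∀ v w v' w' : V, G.Adj v w → G.Adj v' w' →
    ∃ g : G ≃g G, (g v = v' ∧ g w = w') ∨ (g v = w' ∧ g w = v')

instance (G : SimpleGraph V) : Finite (G ≃g G) :=
  Finite.of_injective (fun g : G ≃g G => g.toEquiv) RelIso.toEquiv_injective

noncomputable instance instFintypeIso_pool (G : SimpleGraph V) : Fintype (G ≃g G) :=
  Fintype.ofFinite _

/-- reindexing the group -/
lemma sum_aut (G : SimpleGraph V) (h : G ≃g G) (φ : (G ≃g G) → ℝ) :
    ∑ g : G ≃g G, φ (g * h) = ∑ g : G ≃g G, φ g :=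
  Fintype.sum_equiv (Equiv.mulRight h) _ _ fun _ => rfl

lemma avg_vertex {G : SimpleGraph V} (hG : VTrans G) (φ : V → ℝ) (v : V) :
    (Fintype.card V : ℝ) * ∑ g : G ≃g G, φ (g v) = Fintype.card (G ≃g G) * ∑ w, φ w := by
  have h1 : ∀ w, ∑ g : G ≃g G, φ (g w) = ∑ g : G ≃g G, φ (g v) := by
    intro w
    obtain ⟨h, rfl⟩ := hG v w
    exact sum_aut G h (fun g => φ (g v))
  have h2 : ∑ w, ∑ g : G ≃g G, φ (g w) = Fintype.card V * ∑ g : G ≃g G, φ (g v) := by
    rw [sum_congr rfl fun w _ => h1 w, sum_const, nsmul_eq_mul]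
    rfl
  rw [← h2, sum_comm]
  have h3 : ∀ g : G ≃g G, ∑ w, φ (g w) = ∑ w, φ w := fun g =>
    Fintype.sum_equiv g.toEquiv _ _ fun _ => rfl
  rw [sum_congr rfl fun g _ => h3 g, sum_const, nsmul_eq_mul]
  rfl

lemma avg_edge {G : SimpleGraph V} [DecidableRel G.Adj] (hG : ETrans G) (Φ : V → V → ℝ)
    (hΦ : ∀ a b, Φ a b = Φ b a) {u v : V} (huv : G.Adj u v) :
    (((univ : Finset (V × V)).filter (fun a => G.Adj a.1 a.2)).card : ℝ) *
      ∑ g : G ≃g G, Φ (g u) (g v) =
      Fintype.card (G ≃g G) *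
        ∑ a ∈ (univ : Finset (V × V)).filter (fun a => G.Adj a.1 a.2), Φ a.1 a.2 := by
  have h1 : ∀ a ∈ (univ : Finset (V × V)).filter (fun a => G.Adj a.1 a.2),
      ∑ g : G ≃g G, Φ (g a.1) (g a.2) = ∑ g : G ≃g G, Φ (g u) (g v) := by
    intro a ha
    obtain ⟨h, hh⟩ := hG u v a.1 a.2 huv (mem_filter.1 ha).2
    rcases hh with ⟨h2, h3⟩ | ⟨h2, h3⟩
    · rw [← h2, ← h3]
      exact sum_aut G h (fun g => Φ (g u) (g v))
    · rw [← h2, ← h3]
      refine Eq.trans ?_ (sum_aut G h (fun g => Φ (g u) (g v)))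
      refine sum_congr rfl fun g _ => ?_
      exact hΦ _ _
  have h2 : ∑ a ∈ (univ : Finset (V × V)).filter (fun a => G.Adj a.1 a.2),
      ∑ g : G ≃g G, Φ (g a.1) (g a.2) =
      (((univ : Finset (V × V)).filter (fun a => G.Adj a.1 a.2)).card : ℝ) *
        ∑ g : G ≃g G, Φ (g u) (g v) := by
    rw [sum_congr rfl h1, sum_const, nsmul_eq_mul]
  rw [← h2, sum_comm]
  have h3 : ∀ g : G ≃g G,
      ∑ a ∈ (univ : Finset (V × V)).filter (fun a => G.Adj a.1 a.2), Φ (g a.1) (g a.2) =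
      ∑ a ∈ (univ : Finset (V × V)).filter (fun a => G.Adj a.1 a.2), Φ a.1 a.2 := by
    intro g
    rw [sum_filter, sum_filter]
    refine Fintype.sum_equiv (Equiv.prodCongr g.toEquiv g.toEquiv) _ _ fun a => ?_
    have h4 : G.Adj (g a.1) (g a.2) ↔ G.Adj a.1 a.2 := g.map_rel_iff'
    change (if G.Adj a.1 a.2 then Φ (g a.1) (g a.2) else 0) =
      if G.Adj (g a.1) (g a.2) then Φ (g a.1) (g a.2) else 0
    simp only [h4]
  rw [sum_congr rfl fun g _ => h3 g, sum_const, nsmul_eq_mul]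
  rfl

lemma card_aut_pos (G : SimpleGraph V) : (0 : ℝ) < Fintype.card (G ≃g G) := by
  have : Nonempty (G ≃g G) := ⟨1⟩
  exact_mod_cast Fintype.card_pos

/-- **edge-transitive graphs with a negative eigenvalue of large absolute value** -/
theorem chromatic_of_eigen (G : SimpleGraph V) [DecidableRel G.Adj] (r : ℕ) (hr1 : 1 ≤ r)
    (hr : (G.adjMatrix ℝ).rank ≤ r) (hV : VTrans G) (hE : ETrans G) {d : ℕ}
    (hd : ∀ v, G.degree v = d) (hd0 : 0 < d) {μ : ℝ} (hμ : 0 < μ) (f : V → ℝ) (hf : f ≠ 0)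
    (h : ∑ v, ∑ w, (if G.Adj v w then f v * f w else 0) ≤ -μ * ∑ v, f v ^ 2) :
    Real.logb 2 (G.chromaticNumber.toNat : ℝ) ≤ d / μ * (3 * Real.logb 2 r + 10) := by
  classical
  have hfs : 0 < ∑ v, f v ^ 2 := by
    obtain ⟨v, hv⟩ := Function.ne_iff.1 hf
    exact sum_pos' (fun _ _ => sq_nonneg _) ⟨v, mem_univ v, by
      have : f v ≠ 0 := hv
      positivity⟩
  have hn : 0 < Fintype.card V := by
    obtain ⟨v, hv⟩ := Function.ne_iff.1 hf
    exact Fintype.card_pos_iff.2 ⟨v⟩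
  have hn' : (0 : ℝ) < Fintype.card V := by exact_mod_cast hn
  have hΓ := card_aut_pos G
  set n : ℝ := (Fintype.card V : ℝ) with hndef
  set γ : ℝ := (Fintype.card (G ≃g G) : ℝ) with hγ
  set Q := ∑ v, f v ^ 2 with hQ
  -- the common norm
  set N : ℝ := γ * Q / n with hN
  have hN0 : 0 < N := by positivity
  have hNv : ∀ v, ∑ g : G ≃g G, f (g v) ^ 2 = N := by
    intro v
    have := avg_vertex hV (fun w => f w ^ 2) v
    rw [hN, eq_div_iff hn'.ne', mul_comm]
    exact this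
  -- the number of arcs
  have harcs : (((univ : Finset (V × V)).filter (fun a => G.Adj a.1 a.2)).card : ℝ) = n * d := by
    have h1 : ((univ : Finset (V × V)).filter (fun a => G.Adj a.1 a.2)).card =
        ∑ v : V, G.degree v := by
      rw [card_filter, ← univ_product_univ, sum_product]
      refine sum_congr rfl fun v _ => ?_
      rw [← SimpleGraph.card_neighborFinset_eq_degree, SimpleGraph.neighborFinset_eq_filter,
        card_filter]
    rw [h1, sum_congr rfl fun v _ => hd v, sum_const, smul_eq_mul, card_univ]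
    push_cast
    rfl
  have hd' : (0 : ℝ) < d := by exact_mod_cast hd0
  -- the vectors
  set u : V → EuclideanSpace ℝ (G ≃g G) :=
    fun v => WithLp.toLp 2 (fun g : G ≃g G => (√N)⁻¹ * f (g v)) with hu
  have hin : ∀ v w, ⟪u v, u w⟫ = N⁻¹ * ∑ g : G ≃g G, f (g v) * f (g w) := by
    intro v w
    have h1 : ((√N)⁻¹) ^ 2 = N⁻¹ := by rw [inv_pow, Real.sq_sqrt hN0.le]
    rw [PiLp.inner_apply, mul_sum]
    refine sum_congr rfl fun g _ => ?_
    simp only [hu, RCLike.inner_apply, conj_trivial]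
    rw [← h1]
    ring
  have hnorm : ∀ v, ‖u v‖ = 1 := by
    intro v
    have h1 : ‖u v‖ ^ 2 = 1 := by
      rw [← real_inner_self_eq_norm_sq, hin]
      have h2 : ∑ g : G ≃g G, f (g v) * f (g v) = N := by
        rw [← hNv v]
        refine sum_congr rfl fun g _ => ?_
        ring
      rw [h2, inv_mul_cancel₀ hN0.ne']
    have h2 : 0 ≤ ‖u v‖ := norm_nonneg _
    nlinarith
  refine chromatic_of_vectors G r hr1 hr u hnorm (t := d / μ) (by positivity) ?_
  intro v w hvw
  rw [hin, one_div_div]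
  have h1 := avg_edge hE (fun a b => f a * f b) (fun a b => mul_comm _ _) hvw
  rw [harcs] at h1
  have h2 : ∑ a ∈ (univ : Finset (V × V)).filter (fun a => G.Adj a.1 a.2), f a.1 * f a.2 ≤
      -μ * Q := by
    refine le_trans (le_of_eq ?_) h
    rw [sum_filter, ← univ_product_univ, sum_product]
  have h3 : n * d * ∑ g : G ≃g G, f (g v) * f (g w) ≤ γ * (-μ * Q) := by
    rw [h1]
    exact mul_le_mul_of_nonneg_left h2 hΓ.le
  have h4 : ∑ g : G ≃g G, f (g v) * f (g w) ≤ -(μ / d) * N := by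
    have h5 : 0 < n * (d : ℝ) := by positivity
    have h6 : n * d * (-(μ / d) * N) = γ * (-μ * Q) := by
      rw [hN]
      field_simp
    rw [← h6] at h3
    exact le_of_mul_le_mul_left h3 h5
  calc N⁻¹ * ∑ g : G ≃g G, f (g v) * f (g w) ≤ N⁻¹ * (-(μ / d) * N) :=
        mul_le_mul_of_nonneg_left h4 (by positivity)
    _ = -(μ / d) := by
        field_simp

end Pool.Agent.J4H62.VC
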