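import Mathlib.Probability.Distributions.Gaussian.Multivariate
import Mathlib.Probability.Distributions.Gaussian.HasGaussianLaw.Independence
import Mathlib.Analysis.SpecialFunctions.PolarCoord
import Mathlib.Analysis.SpecialFunctions.Gaussian.GaussianIntegral
import Mathlib.MeasureTheory.Integral.IntegralEqImproper

/-!
# The Gaussian measure of a wedge
-/

set_option autoImplicit false

namespace Pool.Agent.J4H62.VC

open MeasureTheory ProbabilityTheory Set Real

lemma int_radial : ∫ r in Ioi (0 : ℝ), r * exp (-(r ^ 2) / 2) = 1 := by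
  have h1 : ∀ x ∈ Ici (0 : ℝ), HasDerivAt (fun r : ℝ => -exp (-(r ^ 2) / 2))
      (x * exp (-(x ^ 2) / 2)) x := by
    intro x _
    have h2 : HasDerivAt (fun r : ℝ => -(r ^ 2) / 2) (-x) x := by
      have := ((hasDerivAt_pow 2 x).neg).div_const 2
      refine this.congr_deriv ?_
      simp only [Nat.cast_ofNat, Nat.add_one_sub_one, pow_one]
      linarith
    refine ((h2.exp).neg).congr_deriv ?_
    simp [mul_comm]
  have h4 : Filter.Tendsto (fun r : ℝ => -exp (-(r ^ 2) / 2)) Filter.atTop (nhds 0) := by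
    have h5 : Filter.Tendsto (fun r : ℝ => -(r ^ 2) / 2) Filter.atTop Filter.atBot := by
      have : Filter.Tendsto (fun r : ℝ => r ^ 2 / 2) Filter.atTop Filter.atTop :=
        (Filter.tendsto_pow_atTop two_ne_zero).atTop_div_const (by norm_num)
      have h6 := Filter.tendsto_neg_atTop_atBot.comp this
      refine h6.congr fun r => ?_
      simp only [Function.comp_apply]
      ring
    have h7 := (Real.tendsto_exp_atBot.comp h5).neg
    simpa using h7
  have h8 := integral_Ioi_of_hasDerivAt_of_nonneg' h1 (fun x hx => by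
    have : (0 : ℝ) < x := hx
    positivity) h4
  rw [h8]
  simp

/-- the wedge -/
def wedge (a : ℝ) : Set (ℝ × ℝ) := {p | 0 < p.1 ∧ a * p.1 < p.2}

lemma measurableSet_wedge (a : ℝ) : MeasurableSet (wedge a) :=
  (measurableSet_lt measurable_const measurable_fst).inter
    (measurableSet_lt (measurable_fst.const_mul a) measurable_snd)

lemma mem_wedge_polar (a r θ : ℝ) (hr : 0 < r) (hθ : θ ∈ Ioo (-π) π) :
    ((r * cos θ, r * sin θ) ∈ wedge a) ↔ θ ∈ Ioo (arctan a) (π / 2) := by
  have key : ∀ θ : ℝ, θ ∈ Ioo (-(π / 2)) (π / 2) → (a * cos θ < sin θ ↔ arctan a < θ) := by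
    intro θ h
    have hc := cos_pos_of_mem_Ioo h
    rw [← lt_div_iff₀ hc, ← tan_eq_sin_div_cos]
    constructor
    · intro h1
      have := arctan_strictMono h1
      rwa [arctan_tan h.1 h.2] at this
    · intro h1
      have h2 : tan (arctan a) < tan θ :=
        strictMonoOn_tan ⟨neg_pi_div_two_lt_arctan a, arctan_lt_pi_div_two a⟩ h h1
      rwa [tan_arctan] at h2
  constructor
  · rintro ⟨h1, h2⟩
    have h3 : 0 < cos θ := by
      by_contra h
      push Not at h
      have : r * cos θ ≤ 0 := mul_nonpos_of_nonneg_of_nonpos hr.le h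
      exact absurd h1 (not_lt.2 this)
    have h4 : θ ∈ Ioo (-(π / 2)) (π / 2) := by
      constructor
      · by_contra h
        push Not at h
        have h5 : cos θ ≤ 0 := by
          rw [← cos_neg]
          exact cos_nonpos_of_pi_div_two_le_of_le (by linarith) (by linarith [hθ.1])
        linarith
      · by_contra h
        push Not at h
        have h5 : cos θ ≤ 0 := cos_nonpos_of_pi_div_two_le_of_le h (by linarith [hθ.2, pi_pos])
        linarith
    refine ⟨(key θ h4).1 ?_, h4.2⟩
    have h5 : a * (r * cos θ) < r * sin θ := h2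
    have h6 : r * (a * cos θ) < r * sin θ := by linarith [mul_left_comm a r (cos θ)]
    exact lt_of_mul_lt_mul_left h6 hr.le
  · rintro ⟨h1, h2⟩
    have h4 : θ ∈ Ioo (-(π / 2)) (π / 2) := ⟨(neg_pi_div_two_lt_arctan a).trans h1, h2⟩
    refine ⟨mul_pos hr (cos_pos_of_mem_Ioo h4), ?_⟩
    have h5 := (key θ h4).2 h1
    show a * (r * cos θ) < r * sin θ
    have h6 := mul_lt_mul_of_pos_left h5 hr
    linarith [mul_left_comm a r (cos θ)]

/-- **the Gaussian measure of the wedge** -/
lemma gauss_wedge (a : ℝ) :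
    ((gaussianReal 0 1).prod (gaussianReal 0 1)).real (wedge a) =
      (π / 2 - arctan a) / (2 * π) := by
  have h1 : (gaussianReal 0 1).prod (gaussianReal 0 1) =
      (volume : Measure (ℝ × ℝ)).withDensity
        (fun z => gaussianPDF 0 1 z.1 * gaussianPDF 0 1 z.2) := by
    rw [gaussianReal_of_var_ne_zero 0 one_ne_zero,
      prod_withDensity (measurable_gaussianPDF 0 1) (measurable_gaussianPDF 0 1)]
    rfl
  have h2 : ((gaussianReal 0 1).prod (gaussianReal 0 1)).real (wedge a) =
      ∫ p, (wedge a).indicator (fun p => (2 * π)⁻¹ * exp (-(p.1 ^ 2 + p.2 ^ 2) / 2)) p := by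
    rw [h1, measureReal_def, withDensity_apply _ (measurableSet_wedge a),
      integral_indicator (measurableSet_wedge a), integral_eq_lintegral_of_nonneg_ae]
    · congr 1
      refine lintegral_congr fun p => ?_
      rw [gaussianPDF, gaussianPDF, ← ENNReal.ofReal_mul (gaussianPDFReal_nonneg 0 1 _)]
      congr 1
      rw [gaussianPDFReal, gaussianPDFReal]
      simp only [NNReal.coe_one, mul_one, sub_zero]
      rw [mul_mul_mul_comm, ← Real.exp_add, ← mul_inv, Real.mul_self_sqrt (by positivity)]
      congr 2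
      ring
    · exact Filter.Eventually.of_forall fun p => by positivity
    · fun_prop
  rw [h2, ← integral_comp_polarCoord_symm]
  have h3 : ∀ p ∈ polarCoord.target, p.1 • (wedge a).indicator
      (fun p => (2 * π)⁻¹ * exp (-(p.1 ^ 2 + p.2 ^ 2) / 2)) (polarCoord.symm p) =
      (p.1 * exp (-(p.1 ^ 2) / 2)) *
        ((Ioo (arctan a) (π / 2)).indicator (fun _ => (2 * π)⁻¹) p.2) := by
    rintro ⟨r, θ⟩ ⟨hr, hθ⟩
    have hr' : 0 < r := hr
    have h4 := mem_wedge_polar a r θ hr' hθ
    by_cases h5 : θ ∈ Ioo (arctan a) (π / 2)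
    · rw [indicator_of_mem h5]
      have h6 : polarCoord.symm (r, θ) ∈ wedge a := h4.2 h5
      rw [indicator_of_mem h6]
      have h7 : (polarCoord.symm (r, θ)) = (r * cos θ, r * sin θ) := rfl
      rw [h7]
      have h8 : (r * cos θ) ^ 2 + (r * sin θ) ^ 2 = r ^ 2 := by
        have := cos_sq_add_sin_sq θ
        calc _ = r ^ 2 * (cos θ ^ 2 + sin θ ^ 2) := by ring
          _ = _ := by rw [this, mul_one]
      simp only [smul_eq_mul]
      rw [h8]
      ring
    · rw [indicator_of_notMem h5]
      have h6 : polarCoord.symm (r, θ) ∉ wedge a := fun h => h5 (h4.1 h)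
      rw [indicator_of_notMem h6, smul_zero, mul_zero]
  rw [setIntegral_congr_fun polarCoord.open_target.measurableSet h3]
  have h4 : polarCoord.target = Ioi (0 : ℝ) ×ˢ Ioo (-π) π := rfl
  rw [h4]
  have h5 := setIntegral_prod_mul (μ := (volume : Measure ℝ)) (ν := (volume : Measure ℝ))
    (fun r : ℝ => r * exp (-(r ^ 2) / 2))
    (fun θ : ℝ => (Ioo (arctan a) (π / 2)).indicator (fun _ => (2 * π)⁻¹) θ)
    (Ioi (0 : ℝ)) (Ioo (-π) π)
  rw [← Measure.volume_eq_prod] at h5
  rw [h5, int_radial, one_mul, setIntegral_indicator measurableSet_Ioo]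
  have h6 : Ioo (-π) π ∩ Ioo (arctan a) (π / 2) = Ioo (arctan a) (π / 2) := by
    rw [inter_eq_right]
    intro θ hθ
    have := neg_pi_div_two_lt_arctan a
    exact ⟨by linarith [hθ.1, pi_pos], by linarith [hθ.2, pi_pos]⟩
  rw [h6, setIntegral_const, measureReal_def, Real.volume_Ioo, ENNReal.toReal_ofReal
    (by linarith [arctan_lt_pi_div_two a]), smul_eq_mul, ← div_eq_mul_inv]

end Pool.Agent.J4H62.VC
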